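import Mathlib

/-!
# MP_c3fd65_an: the endpoint multilinear extension inequality, tensor structure shared by several inputs

Finitely many blocks `b` of variables, of dimension `d b`, with compact sets `K b ⊆ ℝ^(d b)` and `C¹` maps
`γ b : ℝ^(d b) → ℝ^n`.  Every block belongs to one of `n` hypersurface patches
`Γ_j(t) = ∑_{b ∈ j} γ_b(t_b)` (parametrised by the product of the `K b`, total dimension `n - 1`) and to one
of `n - 1` groups (of total dimension `n`), and the blocks of each group are transversal.  Then the endpoint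
inequality holds for all inputs `f_j(t) = ∏_{b ∈ j} f_b(t_b)` with `f_b ∈ L²(K b)`, and for sums of such
products.  (More generally the groups may overlap and carry weights.)

Proof.  `E_j f_j` is the product of the extensions of the blocks of `j`.  Regroup the blocks, use Hoelder's
inequality over the `n - 1` groups.  The product over a group is the Fourier transform of the push-forward of
a function under a `C¹` map between spaces of dimension `n` whose derivative is invertible on a compact set;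
so its `L²` norm is bounded by Plancherel's theorem.
-/

set_option autoImplicit false
set_option linter.unusedSectionVars false

namespace Pool.Agent.Results.MP_c3fd65_an.BlockInputs

open MeasureTheory Set Filter Topology Complex FourierTransform
open scoped ENNReal NNReal ContDiff SchwartzMap

section Planch

variable {E : Type*} [NormedAddCommGroup E] [InnerProductSpace ℝ E] [FiniteDimensional ℝ E]
  [MeasurableSpace E] [BorelSpace E]

/-- the `L²` Fourier transform agrees with the Fourier integral on `L¹ ∩ L²` -/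
private lemma fourier_toLp_ae {f : E → ℂ} (hf1 : Integrable f) (hf2 : MemLp f 2) :
    (𝓕 (hf2.toLp f) : Lp ℂ 2 (volume : Measure E)) =ᵐ[volume] 𝓕 f := by
  have hcont : Continuous (𝓕 f) :=
    VectorFourier.fourierIntegral_continuous Real.continuous_fourierChar
      (by exact continuous_inner) hf1
  refine ae_eq_of_integral_contDiff_smul_eq ?_ hcont.locallyIntegrable ?_
  · exact (Lp.memLp _).locallyIntegrable (by norm_num)
  · intro g g_smooth g_cpt
    have hg₁ : HasCompactSupport (Complex.ofRealCLM ∘ g) := g_cpt.comp_left rfl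
    have hg₂ : ContDiff ℝ ∞ (Complex.ofRealCLM ∘ g) := by fun_prop
    set ψ : 𝓢(E, ℂ) := hg₁.toSchwartzMap hg₂ with hψ
    have h1 := congrArg (fun T : 𝓢'(E, ℂ) => T ψ)
      (Lp.fourier_toTemperedDistribution_eq (hf2.toLp f))
    simp only [TemperedDistribution.fourier_apply, Lp.toTemperedDistribution_apply] at h1
    have h2 : ∫ x : E, (𝓕 ψ) x • (hf2.toLp f : E → ℂ) x = ∫ x : E, (𝓕 ψ) x • f x := by
      refine integral_congr_ae ?_
      filter_upwards [hf2.coeFn_toLp] with x hx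
      rw [hx]
    have h3 : ∫ x : E, (𝓕 ψ) x • f x = ∫ x : E, ψ x • 𝓕 f x := by
      have := VectorFourier.integral_fourierIntegral_smul_eq_flip (μ := (volume : Measure E))
        (ν := (volume : Measure E)) (L := innerₗ E) (f := (ψ : E → ℂ)) (g := f)
        Real.continuous_fourierChar continuous_inner ψ.integrable hf1
      rw [flip_innerₗ] at this
      exact this
    have h4 : ∀ (F : E → ℂ), ∫ x : E, g x • F x = ∫ x : E, ψ x • F x := by
      intro F
      refine integral_congr_ae (Eventually.of_forall fun x => ?_)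
      simp [hψ]
    rw [h4, h4, ← h3, ← h2, h1]

private theorem plancherel {f : E → ℂ} (hf1 : Integrable f) (hf2 : MemLp f 2) :
    eLpNorm (𝓕 f) 2 = eLpNorm f 2 := by
  rw [← eLpNorm_congr_ae (fourier_toLp_ae hf1 hf2)]
  have h1 := Lp.norm_fourier_eq (hf2.toLp f)
  rw [Lp.norm_def, Lp.norm_def] at h1
  have h2 := (ENNReal.toReal_eq_toReal_iff' (Lp.eLpNorm_ne_top _) (Lp.eLpNorm_ne_top _)).mp h1
  rw [h2, eLpNorm_congr_ae hf2.coeFn_toLp]

private theorem lint_sq_eq {α : Type*} [MeasurableSpace α] {μ : Measure α} (f : α → ℂ) :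
    ∫⁻ x, ‖f x‖ₑ ^ 2 ∂μ = (eLpNorm f 2 μ) ^ 2 := by
  rw [eLpNorm_eq_lintegral_rpow_enorm_toReal (by norm_num) (by norm_num)]
  simp only [ENNReal.toReal_ofNat]
  rw [← ENNReal.rpow_natCast, ← ENNReal.rpow_mul]
  norm_num

/-- Plancherel, for the kernel of the problem -/
private theorem planch_lint {g : E → ℂ} (hf1 : Integrable g) (hf2 : MemLp g 2) :
    ∫⁻ ξ : E, ‖∫ x : E, Complex.exp (2 * Real.pi * Complex.I * ((inner ℝ x ξ : ℝ) : ℂ)) * g x‖ₑ ^ 2
      = ∫⁻ x, ‖g x‖ₑ ^ 2 := by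
  have e : ∀ ξ : E, ∫ x : E, Complex.exp (2 * Real.pi * Complex.I * ((inner ℝ x ξ : ℝ) : ℂ)) * g x
      = 𝓕 g (-ξ) := by
    intro ξ
    rw [Real.fourier_eq']
    apply integral_congr_ae
    refine Eventually.of_forall fun x => ?_
    simp only [smul_eq_mul, inner_neg_right]
    congr 2
    push_cast
    ring
  simp only [e]
  rw [lint_sq_eq, lint_sq_eq, ← plancherel hf1 hf2]
  have h := (Measure.measurePreserving_neg (volume : Measure E))
  have h2 : eLpNorm (fun ξ : E => 𝓕 g (-ξ)) 2 volume = eLpNorm (𝓕 g) 2 volume := by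
    have hcont : Continuous (𝓕 g) :=
      VectorFourier.fourierIntegral_continuous Real.continuous_fourierChar
        (by exact continuous_inner) hf1
    exact eLpNorm_comp_measurePreserving hcont.aestronglyMeasurable h
  rw [h2]

end Planch


section Dual

variable {E : Type*} [NormedAddCommGroup E] [InnerProductSpace ℝ E] [FiniteDimensional ℝ E]
  [MeasurableSpace E] [BorelSpace E]
variable {Y : Type*} [MeasurableSpace Y]

/-- the exponential -/
private noncomputable def ex (x ξ : E) : ℂ := Complex.exp (2 * Real.pi * Complex.I * ((inner ℝ x ξ : ℝ) : ℂ))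

private theorem norm_ex (x ξ : E) : ‖ex x ξ‖ = 1 := by
  unfold ex
  rw [show (2 * Real.pi * Complex.I * ((inner ℝ x ξ : ℝ) : ℂ) : ℂ) = ((2 * Real.pi * inner ℝ x ξ : ℝ) : ℂ) * Complex.I by
    push_cast; ring]
  exact Complex.norm_exp_ofReal_mul_I _

private theorem ex_add (x ξ η : E) : ex x (ξ + η) = ex x ξ * ex x η := by
  unfold ex
  rw [← Complex.exp_add, inner_add_right]
  congr 1
  push_cast
  ring

private theorem continuous_ex : Continuous (fun p : E × E => ex p.1 p.2) := by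
  unfold ex
  fun_prop

private theorem measurable_ex {Φ : Y → E} (hΦ : Measurable Φ) : Measurable (fun p : E × Y => ex p.1 (Φ p.2)) :=
  continuous_ex.measurable.comp (measurable_fst.prodMk (hΦ.comp measurable_snd))

/-- the extension operator of a measure -/
private noncomputable def TT (ν : Measure Y) (Φ : Y → E) (h : Y → ℂ) (x : E) : ℂ := ∫ y, ex x (Φ y) * h y ∂ν

private theorem TT_bound (ν : Measure Y) (Φ : Y → E) (h : Y → ℂ) (x : E) :
    ‖TT ν Φ h x‖ ≤ ∫ y, ‖h y‖ ∂ν := by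
  unfold TT
  refine (norm_integral_le_integral_norm _).trans (le_of_eq ?_)
  apply integral_congr_ae
  refine Eventually.of_forall fun y => ?_
  simp only [norm_mul, norm_ex, one_mul]

private theorem TT_cont (ν : Measure Y) {Φ : Y → E} (hΦ : Measurable Φ) {h : Y → ℂ} (h1 : Integrable h ν) :
    Continuous (TT ν Φ h) := by
  unfold TT
  apply continuous_of_dominated (bound := fun y => ‖h y‖)
  · intro x
    apply AEStronglyMeasurable.mul _ h1.1
    exact (measurable_ex hΦ |>.comp (measurable_const.prodMk measurable_id)).aestronglyMeasurable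
  · intro x
    refine Eventually.of_forall fun y => ?_
    simp only [norm_mul, norm_ex, one_mul]
    exact le_rfl
  · exact h1.norm
  · refine Eventually.of_forall fun y => ?_
    have : Continuous (fun x : E => ex x (Φ y)) := continuous_ex.comp (continuous_id.prodMk continuous_const)
    exact this.mul continuous_const

private theorem dual_ball (ν : Measure Y) [SFinite ν] {Φ : Y → E} (hΦ : Measurable Φ) (D : ℝ≥0∞)
    (hν : ∀ B, MeasurableSet B → ν (Φ ⁻¹' B) ≤ D * volume B) {h : Y → ℂ} (h1 : Integrable h ν) (R : ℝ) :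
    ∫⁻ x in Metric.closedBall (0 : E) R, ‖TT ν Φ h x‖ₑ ^ 2 ≤ D * ∫⁻ y, ‖h y‖ₑ ^ 2 ∂ν := by
  obtain ⟨φ, hφ⟩ : ∃ φ : E → ℂ, φ = (Metric.closedBall (0 : E) R).indicator (fun x => (starRingEnd ℂ) (TT ν Φ h x)) :=
    ⟨_, rfl⟩
  have hTc := TT_cont ν hΦ h1
  have hball : MeasurableSet (Metric.closedBall (0 : E) R) := Metric.isClosed_closedBall.measurableSet
  have hfin : volume (Metric.closedBall (0 : E) R) < ⊤ := measure_closedBall_lt_top
  have hφL : ∀ p : ℝ≥0∞, MemLp φ p volume := by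
    intro p
    rw [hφ, memLp_indicator_iff_restrict hball]
    have : IsFiniteMeasure ((volume : Measure E).restrict (Metric.closedBall (0 : E) R)) := ⟨by simpa using hfin⟩
    apply MemLp.of_bound (C := ∫ y, ‖h y‖ ∂ν)
    · exact (Complex.continuous_conj.comp hTc).aestronglyMeasurable
    · refine Eventually.of_forall fun x => ?_
      rw [RCLike.norm_conj]
      exact TT_bound ν Φ h x
  have hφ1 : Integrable φ := memLp_one_iff_integrable.1 (hφL 1)
  have hφ2 : MemLp φ 2 := hφL 2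
  obtain ⟨ψ, hψ⟩ : ∃ ψ : E → ℂ, ψ = fun ξ => ∫ x : E, ex x ξ * φ x := ⟨_, rfl⟩
  have hψm : Measurable ψ := by
    rw [hψ]
    have : Continuous (fun ξ : E => ∫ x : E, ex x ξ * φ x) := by
      apply continuous_of_dominated (bound := fun x => ‖φ x‖)
      · intro ξ
        apply AEStronglyMeasurable.mul _ hφ1.1
        exact (continuous_ex.comp (continuous_id.prodMk continuous_const)).aestronglyMeasurable
      · intro ξ
        refine Eventually.of_forall fun x => ?_
        simp only [norm_mul, norm_ex, one_mul]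
        exact le_rfl
      · exact hφ1.norm
      · refine Eventually.of_forall fun x => ?_
        have : Continuous (fun ξ : E => ex x ξ) := continuous_ex.comp (continuous_const.prodMk continuous_id)
        exact this.mul continuous_const
    exact this.measurable
  obtain ⟨IR, hIR⟩ : ∃ IR : ℝ≥0∞, IR = ∫⁻ x in Metric.closedBall (0 : E) R, ‖TT ν Φ h x‖ₑ ^ 2 := ⟨_, rfl⟩
  obtain ⟨HH, hHH⟩ : ∃ HH : ℝ≥0∞, HH = ∫⁻ y, ‖h y‖ₑ ^ 2 ∂ν := ⟨_, rfl⟩
  have eφ : ∫⁻ x, ‖φ x‖ₑ ^ 2 = IR := by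
    rw [hIR, ← lintegral_indicator hball]
    apply lintegral_congr
    intro x
    rw [hφ]
    by_cases hx : x ∈ Metric.closedBall (0 : E) R
    · rw [indicator_of_mem hx, indicator_of_mem hx, RCLike.enorm_conj]
    · rw [indicator_of_notMem hx, indicator_of_notMem hx]
      simp
  have eψ : ∫⁻ ξ, ‖ψ ξ‖ₑ ^ 2 = IR := by
    rw [← eφ, ← planch_lint hφ1 hφ2, hψ]
    rfl
  have hIRfin : IR ≠ ⊤ := by
    rw [← eφ, lint_sq_eq]
    exact ENNReal.pow_ne_top hφ2.2.ne
  -- Fubini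
  have hF : Integrable (fun p : E × Y => ex p.1 (Φ p.2) * (φ p.1 * h p.2)) (volume.prod ν) := by
    have h3 : Integrable (fun p : E × Y => φ p.1 * h p.2) (volume.prod ν) := hφ1.mul_prod h1
    refine h3.mono ((measurable_ex hΦ).aestronglyMeasurable.mul h3.1) ?_
    refine Eventually.of_forall fun p => ?_
    rw [norm_mul, norm_ex, one_mul]
  have e1 : ∫ x, TT ν Φ h x * φ x = ∫ y, h y * ψ (Φ y) ∂ν := by
    have a1 : ∀ x, TT ν Φ h x * φ x = ∫ y, ex x (Φ y) * (φ x * h y) ∂ν := by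
      intro x
      unfold TT
      rw [← integral_mul_const]
      congr 1
      funext y
      ring
    have a2 : ∀ y, h y * ψ (Φ y) = ∫ x, ex x (Φ y) * (φ x * h y) := by
      intro y
      rw [hψ]
      simp only
      rw [← integral_const_mul]
      congr 1
      funext x
      ring
    simp only [a1, a2]
    exact integral_integral_swap hF
  have e2 : ∫ x, TT ν Φ h x * φ x = ((IR.toReal : ℝ) : ℂ) := by
    have a1 : ∀ x, TT ν Φ h x * φ x = ((‖φ x‖ ^ 2 : ℝ) : ℂ) := by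
      intro x
      rw [hφ]
      by_cases hx : x ∈ Metric.closedBall (0 : E) R
      · rw [indicator_of_mem hx, RCLike.norm_conj, Complex.mul_conj, Complex.normSq_eq_norm_sq]
      · rw [indicator_of_notMem hx]; simp
    simp only [a1]
    refine (integral_ofReal (𝕜 := ℂ) (f := fun x : E => ‖φ x‖ ^ 2)).trans ?_
    congr 1
    rw [integral_eq_lintegral_of_nonneg_ae (Eventually.of_forall fun x => by positivity)
      (by exact (hφ2.1.norm.pow 2))]
    rw [← eφ]
    congr 1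
    apply lintegral_congr
    intro x
    rw [ENNReal.ofReal_pow (norm_nonneg _), ofReal_norm]
  have e3 : IR ≤ ∫⁻ y, ‖h y‖ₑ * ‖ψ (Φ y)‖ₑ ∂ν := by
    have b1 : ‖∫ y, h y * ψ (Φ y) ∂ν‖ₑ ≤ ∫⁻ y, ‖h y * ψ (Φ y)‖ₑ ∂ν := enorm_integral_le_lintegral_enorm _
    rw [← e1, e2] at b1
    have b2 : ‖((IR.toReal : ℝ) : ℂ)‖ₑ = IR := by
      rw [← ofReal_norm, Complex.norm_real, Real.norm_eq_abs, abs_of_nonneg ENNReal.toReal_nonneg,
        ENNReal.ofReal_toReal hIRfin]
    rw [b2] at b1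
    simpa only [enorm_mul] using b1
  have e4 : ∫⁻ y, ‖h y‖ₑ * ‖ψ (Φ y)‖ₑ ∂ν ≤ HH ^ (1 / 2 : ℝ) * (D * IR) ^ (1 / 2 : ℝ) := by
    have c1 := ENNReal.lintegral_mul_le_Lp_mul_Lq ν (Real.HolderConjugate.two_two) (f := fun y => ‖h y‖ₑ)
      (g := fun y => ‖ψ (Φ y)‖ₑ) h1.1.enorm (by
        exact ((hψm.comp hΦ).enorm).aemeasurable)
    refine c1.trans ?_
    have c2 : ∫⁻ y, ‖h y‖ₑ ^ (2 : ℝ) ∂ν = HH := by
      rw [hHH]
      apply lintegral_congr
      intro y
      rw [← ENNReal.rpow_natCast]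
      norm_num
    have c3 : ∫⁻ y, ‖ψ (Φ y)‖ₑ ^ (2 : ℝ) ∂ν ≤ D * IR := by
      have d1 : ∫⁻ y, ‖ψ (Φ y)‖ₑ ^ (2 : ℝ) ∂ν = ∫⁻ ξ, ‖ψ ξ‖ₑ ^ 2 ∂(ν.map Φ) := by
        rw [lintegral_map (by fun_prop) hΦ]
        apply lintegral_congr
        intro y
        rw [← ENNReal.rpow_natCast]
        norm_num
      rw [d1, ← eψ, ← smul_eq_mul, ← lintegral_smul_measure]
      apply lintegral_mono' _ le_rfl
      rw [Measure.le_iff]
      intro B hB
      rw [Measure.map_apply hΦ hB, Measure.smul_apply, smul_eq_mul]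
      exact hν B hB
    rw [c2]
    gcongr
  have e5 : IR ≤ HH ^ (1 / 2 : ℝ) * (D * IR) ^ (1 / 2 : ℝ) := e3.trans e4
  rw [← hIR, ← hHH]
  have e6 : IR ^ 2 ≤ HH * (D * IR) := by
    calc IR ^ 2 ≤ (HH ^ (1 / 2 : ℝ) * (D * IR) ^ (1 / 2 : ℝ)) ^ 2 := by gcongr
      _ = HH * (D * IR) := by
          rw [mul_pow, ← ENNReal.rpow_natCast, ← ENNReal.rpow_natCast, ← ENNReal.rpow_mul, ← ENNReal.rpow_mul]
          norm_num
  by_cases h0 : IR = 0
  · rw [h0]; exact zero_le
  · have e7 : IR * IR ≤ (D * HH) * IR := by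
      calc IR * IR = IR ^ 2 := by ring
        _ ≤ HH * (D * IR) := e6
        _ = _ := by ring
    exact (ENNReal.mul_le_mul_iff_left h0 hIRfin).1 e7

private theorem dual_l2 (ν : Measure Y) [SFinite ν] {Φ : Y → E} (hΦ : Measurable Φ) (D : ℝ≥0∞)
    (hν : ∀ B, MeasurableSet B → ν (Φ ⁻¹' B) ≤ D * volume B) {h : Y → ℂ} (h1 : Integrable h ν) :
    ∫⁻ x : E, ‖TT ν Φ h x‖ₑ ^ 2 ≤ D * ∫⁻ y, ‖h y‖ₑ ^ 2 ∂ν := by
  have e : (univ : Set E) = ⋃ n : ℕ, Metric.closedBall (0 : E) n := by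
    symm
    exact Metric.iUnion_closedBall_nat 0
  rw [← setLIntegral_univ, e, setLIntegral_iUnion_of_directed]
  · apply iSup_le
    intro n
    exact dual_ball ν hΦ D hν h1 n
  · apply Monotone.directed_le
    intro a b hab
    apply Metric.closedBall_subset_closedBall
    exact_mod_cast hab

end Dual


section Pair

variable {E : Type*} [NormedAddCommGroup E] [InnerProductSpace ℝ E] [FiniteDimensional ℝ E]
  [MeasurableSpace E] [BorelSpace E]

open Measure in
private theorem vol_preimage_le {F E : Type*} [NormedAddCommGroup F] [NormedSpace ℝ F] [FiniteDimensional ℝ F]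
    [MeasurableSpace F] [BorelSpace F] [NormedAddCommGroup E] [NormedSpace ℝ E] [FiniteDimensional ℝ E]
    [MeasurableSpace E] [BorelSpace E] (hd : Module.finrank ℝ F = Module.finrank ℝ E)
    (μF : Measure F) [IsAddHaarMeasure μF] (μE : Measure E) [IsAddHaarMeasure μE]
    {Φ : F → E} {S : Set F} {K : ℝ≥0} (hΦ : AntilipschitzWith K (S.domRestrict Φ)) :
    ∃ D : ℝ≥0∞, D ≠ ⊤ ∧ ∀ B : Set E, μF (S ∩ Φ ⁻¹' B) ≤ D * μE B := by
  have h1 : μF = addHaarScalarFactor μF (μH[Module.finrank ℝ F]) • (μH[Module.finrank ℝ F] : Measure F) :=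
    isAddLeftInvariant_eq_smul _ _
  have h2 : (μH[Module.finrank ℝ E] : Measure E) = addHaarScalarFactor (μH[Module.finrank ℝ E]) μE • μE :=
    isAddLeftInvariant_eq_smul _ _
  obtain ⟨c1, hc1⟩ : ∃ c1 : ℝ≥0, c1 = addHaarScalarFactor μF (μH[Module.finrank ℝ F]) := ⟨_, rfl⟩
  obtain ⟨c2, hc2⟩ : ∃ c2 : ℝ≥0, c2 = addHaarScalarFactor (μH[Module.finrank ℝ E]) μE := ⟨_, rfl⟩
  refine ⟨c1 * ((K : ℝ≥0∞) ^ (Module.finrank ℝ F : ℝ) * c2), ?_, ?_⟩
  · exact ENNReal.mul_ne_top ENNReal.coe_ne_top (ENNReal.mul_ne_top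
      (ENNReal.rpow_ne_top_of_nonneg (by positivity) ENNReal.coe_ne_top) ENNReal.coe_ne_top)
  · intro B
    have e1 : S ∩ Φ ⁻¹' B = Subtype.val '' ((S.domRestrict Φ) ⁻¹' B) := by
      ext x
      simp only [mem_inter_iff, mem_preimage, mem_image, Set.domRestrict_apply, Subtype.exists]
      constructor
      · rintro ⟨a, b⟩; exact ⟨x, a, b, rfl⟩
      · rintro ⟨y, a, b, rfl⟩; exact ⟨a, b⟩
    have e2 : (μH[Module.finrank ℝ F] : Measure F) (S ∩ Φ ⁻¹' B) ≤
        (K : ℝ≥0∞) ^ (Module.finrank ℝ F : ℝ) * (μH[Module.finrank ℝ E] : Measure E) B := by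
      rw [e1, isometry_subtype_coe.hausdorffMeasure_image (Or.inl (by positivity)), ← hd]
      exact hΦ.hausdorffMeasure_preimage_le (by positivity) B
    calc μF (S ∩ Φ ⁻¹' B) = c1 * (μH[Module.finrank ℝ F] : Measure F) (S ∩ Φ ⁻¹' B) := by
          conv_lhs => rw [h1]
          rw [Measure.smul_apply, hc1]; rfl
      _ ≤ c1 * ((K : ℝ≥0∞) ^ (Module.finrank ℝ F : ℝ) * (μH[Module.finrank ℝ E] : Measure E) B) := by
          gcongr
      _ = c1 * ((K : ℝ≥0∞) ^ (Module.finrank ℝ F : ℝ) * (c2 * μE B)) := by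
          conv_lhs => rw [h2]
          rw [Measure.smul_apply, hc2]; rfl
      _ = _ := by ring

/-- local bound of the density at a point where the derivative is injective -/
private theorem local_bound {F : Type*} [NormedAddCommGroup F] [NormedSpace ℝ F] [FiniteDimensional ℝ F]
    [MeasurableSpace F] [BorelSpace F] (hd : Module.finrank ℝ F = Module.finrank ℝ E)
    (μF : Measure F) [μF.IsAddHaarMeasure] {Φ : F → E} {Φ' : F →L[ℝ] E} {p : F}
    (h : HasStrictFDerivAt Φ Φ' p) (hinj : Function.Injective Φ') :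
    ∃ O : Set F, IsOpen O ∧ p ∈ O ∧ ∃ D : ℝ≥0∞, D ≠ ⊤ ∧ ∀ S ⊆ O, ∀ B : Set E,
      μF (S ∩ Φ ⁻¹' B) ≤ D * volume B := by
  let e : F ≃ₗ[ℝ] E := LinearMap.linearEquivOfInjective (Φ' : F →ₗ[ℝ] E) hinj hd
  let e' : F ≃L[ℝ] E := e.toContinuousLinearEquiv
  have he : (e' : F →L[ℝ] E) = Φ' := by
    ext v
    rfl
  rw [← he] at h
  obtain ⟨O, hpO, hO, happ⟩ := h.approximates_deriv_on_open_nhds
  have hanti := happ.antilipschitz (e'.subsingleton_or_nnnorm_symm_pos.imp id fun hf' =>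
    NNReal.half_lt_self <| ne_of_gt <| inv_pos.2 hf')
  obtain ⟨D, hD, hB⟩ := vol_preimage_le hd μF (volume : Measure E) hanti
  refine ⟨O, hO, hpO, D, hD, ?_⟩
  intro S hS B
  exact (measure_mono (inter_subset_inter_left _ hS)).trans (hB B)


end Pair

section Group

variable {E : Type*} [NormedAddCommGroup E] [InnerProductSpace ℝ E] [FiniteDimensional ℝ E]
  [MeasurableSpace E] [BorelSpace E]
variable {κ : Type*} [Fintype κ] {d : κ → ℕ}

private theorem enorm_prod' (v : κ → ℂ) : ‖∏ k, v k‖ₑ = ∏ k, ‖v k‖ₑ := by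
  simp only [enorm_eq_nnnorm, nnnorm_prod, ENNReal.ofNNReal_finsetProd]

private theorem ex_sum (x : E) (v : κ → E) : ex x (∑ k, v k) = ∏ k, ex x (v k) := by
  unfold ex
  rw [← Complex.exp_sum, inner_sum]
  congr 1
  push_cast
  rw [Finset.mul_sum]

/-- the extension of a product is the product of the extensions -/
private theorem TT_pi (K : ∀ b, Set (EuclideanSpace ℝ (Fin (d b)))) (γ : ∀ b, EuclideanSpace ℝ (Fin (d b)) → E)
    (f : ∀ b, EuclideanSpace ℝ (Fin (d b)) → ℂ) (x : E) :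
    TT (Measure.pi (fun b => (volume : Measure (EuclideanSpace ℝ (Fin (d b)))).restrict (K b)))
      (fun t => ∑ b, γ b (t b)) (fun t => ∏ b, f b (t b)) x =
      ∏ b, TT (volume.restrict (K b)) (γ b) (f b) x := by
  unfold TT
  rw [← integral_fintype_prod_eq_prod]
  congr 1
  funext t
  rw [ex_sum, ← Finset.prod_mul_distrib]

/-- the square of the norm of a product is the product of the squares -/
private theorem lint_pi {μ : ∀ b, Measure (EuclideanSpace ℝ (Fin (d b)))} [∀ b, SigmaFinite (μ b)]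
    {f : ∀ b, EuclideanSpace ℝ (Fin (d b)) → ℂ} (hf : ∀ b, MemLp (f b) 2 (μ b)) :
    ∫⁻ t, ‖∏ b, f b (t b)‖ₑ ^ 2 ∂(Measure.pi μ) = ∏ b, ∫⁻ y, ‖f b y‖ₑ ^ 2 ∂μ b := by
  have h1 : ∀ b, Integrable (fun y => (‖f b y‖ ^ 2 : ℝ)) (μ b) := fun b => (hf b).integrable_norm_pow (by norm_num)
  have h2 : Integrable (fun t : (∀ b, EuclideanSpace ℝ (Fin (d b))) => ∏ b, (‖f b (t b)‖ ^ 2 : ℝ)) (Measure.pi μ) :=
    Integrable.fintype_prod_dep (𝕜 := ℝ) h1
  have h3 := ofReal_integral_norm_eq_lintegral_enorm h2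
  have h4 : ∀ b, ENNReal.ofReal (∫ y, ‖(‖f b y‖ ^ 2 : ℝ)‖ ∂μ b) = ∫⁻ y, ‖f b y‖ₑ ^ 2 ∂μ b := by
    intro b
    rw [ofReal_integral_norm_eq_lintegral_enorm (h1 b)]
    apply lintegral_congr
    intro y
    rw [enorm_pow, enorm_norm]
  have h5 : ∫ t : (∀ b, EuclideanSpace ℝ (Fin (d b))), ‖∏ b, (‖f b (t b)‖ ^ 2 : ℝ)‖ ∂(Measure.pi μ) =
      ∏ b, ∫ y, ‖(‖f b y‖ ^ 2 : ℝ)‖ ∂μ b := by
    rw [← integral_fintype_prod_eq_prod]
    congr 1
    funext t
    rw [norm_prod]
  rw [h5, ENNReal.ofReal_prod_of_nonneg (fun b _ => integral_nonneg (fun y => norm_nonneg _))] at h3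
  simp only [h4] at h3
  rw [h3]
  apply lintegral_congr
  intro t
  rw [Finset.prod_pow, ← norm_prod, enorm_pow, enorm_norm]

/-- the density bound of the block map -/
private theorem pi_density (hd : ∑ b, d b = Module.finrank ℝ E) {K : ∀ b, Set (EuclideanSpace ℝ (Fin (d b)))}
    (hK : ∀ b, IsCompact (K b)) {γ : ∀ b, EuclideanSpace ℝ (Fin (d b)) → E} (hγ : ∀ b, ContDiff ℝ 1 (γ b))
    (hinj : ∀ t : (∀ b, EuclideanSpace ℝ (Fin (d b))), (∀ b, t b ∈ K b) →
      ∀ v : (∀ b, EuclideanSpace ℝ (Fin (d b))), ∑ b, fderiv ℝ (γ b) (t b) (v b) = 0 → v = 0) :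
    ∃ D : ℝ≥0∞, D ≠ ⊤ ∧ ∀ B : Set E, MeasurableSet B →
      (Measure.pi (fun b => (volume : Measure (EuclideanSpace ℝ (Fin (d b)))).restrict (K b)))
        ((fun t => ∑ b, γ b (t b)) ⁻¹' B) ≤ D * volume B := by
  have hfin : Module.finrank ℝ (∀ b, EuclideanSpace ℝ (Fin (d b))) = Module.finrank ℝ E := by
    rw [Module.finrank_pi_fintype, ← hd]
    exact Finset.sum_congr rfl (fun b _ => finrank_euclideanSpace_fin)
  have hC : IsCompact (univ.pi K) := isCompact_univ_pi hK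
  have hmeas : Measurable (fun t : (∀ b, EuclideanSpace ℝ (Fin (d b))) => ∑ b, γ b (t b)) := by
    apply Finset.measurable_fun_sum
    intro b _
    exact (hγ b).continuous.measurable.comp (measurable_pi_apply b)
  have key : ∃ D : ℝ≥0∞, D ≠ ⊤ ∧ ∀ B : Set E,
      (Measure.pi (fun b => (volume : Measure (EuclideanSpace ℝ (Fin (d b))))))
        (univ.pi K ∩ (fun t => ∑ b, γ b (t b)) ⁻¹' B) ≤ D * volume B := by
    refine hC.induction_on (p := fun S => ∃ D : ℝ≥0∞, D ≠ ⊤ ∧ ∀ B : Set E,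
      (Measure.pi (fun b => (volume : Measure (EuclideanSpace ℝ (Fin (d b))))))
        (S ∩ (fun t => ∑ b, γ b (t b)) ⁻¹' B) ≤ D * volume B) ?_ ?_ ?_ ?_
    · exact ⟨0, ENNReal.zero_ne_top, fun B => by simp⟩
    · rintro S T hST ⟨D, hD, h⟩
      exact ⟨D, hD, fun B => (measure_mono (inter_subset_inter_left _ hST)).trans (h B)⟩
    · rintro S T ⟨D, hD, h⟩ ⟨D', hD', h'⟩
      refine ⟨D + D', ENNReal.add_ne_top.2 ⟨hD, hD'⟩, fun B => ?_⟩
      rw [union_inter_distrib_right, add_mul]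
      exact (measure_union_le _ _).trans (add_le_add (h B) (h' B))
    · intro p hp
      have hstrict : HasStrictFDerivAt (fun t : (∀ b, EuclideanSpace ℝ (Fin (d b))) => ∑ b, γ b (t b))
          (∑ b, (fderiv ℝ (γ b) (p b)).comp (ContinuousLinearMap.proj b)) p := by
        apply HasStrictFDerivAt.fun_sum
        intro b _
        have h1 : HasStrictFDerivAt (γ b) (fderiv ℝ (γ b) (p b)) (p b) :=
          ((hγ b).contDiffAt (x := p b)).hasStrictFDerivAt (by norm_num)
        exact h1.comp p (ContinuousLinearMap.proj b : (∀ b, EuclideanSpace ℝ (Fin (d b))) →L[ℝ] _).hasStrictFDerivAt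
      have hinj' : Function.Injective (⇑(∑ b, (fderiv ℝ (γ b) (p b)).comp (ContinuousLinearMap.proj b) :
          (∀ b, EuclideanSpace ℝ (Fin (d b))) →L[ℝ] E)) := by
        rw [injective_iff_map_eq_zero]
        intro v hv
        apply hinj p (fun b => hp b (mem_univ b)) v
        simpa using hv
      obtain ⟨O, hO, hpO, D, hD, hB⟩ := local_bound hfin
        (Measure.pi (fun b => (volume : Measure (EuclideanSpace ℝ (Fin (d b)))))) hstrict hinj'
      exact ⟨O, mem_nhdsWithin_of_mem_nhds (hO.mem_nhds hpO), D, hD, fun B => hB O subset_rfl B⟩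
  obtain ⟨D, hD, h⟩ := key
  refine ⟨D, hD, fun B hB => ?_⟩
  rw [← Measure.restrict_pi_pi, Measure.restrict_apply (hmeas hB), inter_comm]
  exact h B

/-- the `L²` estimate for the product over a group -/
private theorem group_est (hd : ∑ b, d b = Module.finrank ℝ E) {K : ∀ b, Set (EuclideanSpace ℝ (Fin (d b)))}
    (hK : ∀ b, IsCompact (K b)) {γ : ∀ b, EuclideanSpace ℝ (Fin (d b)) → E} (hγ : ∀ b, ContDiff ℝ 1 (γ b))
    (hinj : ∀ t : (∀ b, EuclideanSpace ℝ (Fin (d b))), (∀ b, t b ∈ K b) →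
      ∀ v : (∀ b, EuclideanSpace ℝ (Fin (d b))), ∑ b, fderiv ℝ (γ b) (t b) (v b) = 0 → v = 0) :
    ∃ D : ℝ≥0∞, D ≠ ⊤ ∧ ∀ f : ∀ b, EuclideanSpace ℝ (Fin (d b)) → ℂ,
      (∀ b, MemLp (f b) 2 (volume.restrict (K b))) →
      ∫⁻ x : E, ∏ b, ‖TT (volume.restrict (K b)) (γ b) (f b) x‖ₑ ^ 2 ≤
        D * ∏ b, ∫⁻ y in K b, ‖f b y‖ₑ ^ 2 := by
  obtain ⟨D, hD, h⟩ := pi_density hd hK hγ hinj
  refine ⟨D, hD, fun f hf => ?_⟩
  have hmeas : Measurable (fun t : (∀ b, EuclideanSpace ℝ (Fin (d b))) => ∑ b, γ b (t b)) := by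
    apply Finset.measurable_fun_sum
    intro b _
    exact (hγ b).continuous.measurable.comp (measurable_pi_apply b)
  have hfin : ∀ b, IsFiniteMeasure ((volume : Measure (EuclideanSpace ℝ (Fin (d b)))).restrict (K b)) :=
    fun b => ⟨by simpa using (hK b).measure_lt_top⟩
  have hint : ∀ b, Integrable (f b) (volume.restrict (K b)) := fun b => (hf b).integrable (by norm_num)
  have h1 := dual_l2 (Measure.pi (fun b => (volume : Measure (EuclideanSpace ℝ (Fin (d b)))).restrict (K b)))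
    hmeas D h (h := fun t => ∏ b, f b (t b)) (Integrable.fintype_prod_dep hint)
  rw [lint_pi hf] at h1
  refine le_trans (le_of_eq ?_) h1
  apply lintegral_congr
  intro x
  rw [TT_pi, enorm_prod', Finset.prod_pow]

end Group

section Sums

variable {E : Type*} [NormedAddCommGroup E] [InnerProductSpace ℝ E] [FiniteDimensional ℝ E]
  [MeasurableSpace E] [BorelSpace E]
variable {κ : Type*} [Fintype κ] {d : κ → ℕ}

private theorem tsum_rpow_le {q : ℝ} (hq : 0 < q) (hq1 : q ≤ 1) (b : ℕ → ℝ≥0∞) : (∑' l, b l) ^ q ≤ ∑' l, b l ^ q := by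
  have h1 : ∀ s : Finset ℕ, (∑ l ∈ s, b l) ^ q ≤ ∑ l ∈ s, b l ^ q := by
    intro s
    induction s using Finset.induction with
    | empty => simp [hq]
    | insert a s ha ih =>
      rw [Finset.sum_insert ha, Finset.sum_insert ha]
      exact (ENNReal.rpow_add_le_add_rpow _ _ hq.le hq1).trans (by gcongr)
  have h2 : Tendsto (fun s : Finset ℕ => (∑ l ∈ s, b l) ^ q) atTop (𝓝 ((∑' l, b l) ^ q)) :=
    ((ENNReal.continuous_rpow_const.tendsto _).comp ENNReal.summable.hasSum)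
  refine le_of_tendsto h2 (Eventually.of_forall fun s => ?_)
  exact (h1 s).trans (ENNReal.sum_le_tsum s)

private theorem tsum_pow_ne_top {p : ℝ} (hp : 1 ≤ p) {y : ℕ → ℝ≥0∞} (hy : ∑' l, y l ≠ ⊤) : ∑' l, y l ^ p ≠ ⊤ := by
  have h1 : ∀ l, y l ^ p ≤ y l * (∑' l, y l) ^ (p - 1) := by
    intro l
    have h2 : y l ^ p = y l * y l ^ (p - 1) := by
      conv_lhs => rw [show p = 1 + (p - 1) by ring]
      rw [ENNReal.rpow_add_of_nonneg _ _ zero_le_one (by linarith), ENNReal.rpow_one]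
    rw [h2]
    gcongr
    exact ENNReal.le_tsum l
  refine ne_top_of_le_ne_top ?_ (ENNReal.tsum_le_tsum h1)
  rw [ENNReal.tsum_mul_right]
  exact ENNReal.mul_ne_top hy (ENNReal.rpow_ne_top_of_nonneg (by linarith) hy)

/-- a product of sums is a sum of products -/
private theorem prod_tsum_fin : ∀ (N : ℕ) (F : Fin N → ℕ → ℝ≥0∞),
    ∏ j, ∑' l, F j l = ∑' L : Fin N → ℕ, ∏ j, F j (L j)
  | 0, F => by simp
  | N + 1, F => by
    rw [Fin.prod_univ_succ, prod_tsum_fin N, ← (Fin.consEquiv (fun _ => ℕ)).tsum_eq, ENNReal.tsum_prod']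
    simp [Fin.prod_univ_succ, Fin.consEquiv, ENNReal.tsum_mul_left, ENNReal.tsum_mul_right]

/-- the `L¹` norm is bounded by the `L²` norm -/
private theorem l1_le {α : Type*} [MeasurableSpace α] {μ : Measure α} {a : α → ℂ} (ha : MemLp a 2 μ) :
    ∫⁻ s, ‖a s‖ₑ ∂μ ≤ (∫⁻ s, ‖a s‖ₑ ^ 2 ∂μ) ^ (1 / 2 : ℝ) * (μ univ) ^ (1 / 2 : ℝ) := by
  have h := ENNReal.lintegral_mul_le_Lp_mul_Lq μ Real.HolderConjugate.two_two
    (f := fun s => ‖a s‖ₑ) (g := fun _ => 1) ha.1.enorm aemeasurable_const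
  simp only [Pi.mul_apply, mul_one, ENNReal.one_rpow, lintegral_const, one_mul] at h
  have e : ∫⁻ s, ‖a s‖ₑ ^ (2 : ℝ) ∂μ = ∫⁻ s, ‖a s‖ₑ ^ 2 ∂μ := by
    apply lintegral_congr
    intro s
    rw [← ENNReal.rpow_natCast]
    norm_num
  rw [e] at h
  exact h

/-- summability of the `L¹` norms -/
private theorem summable_l1 {m : ℕ} (hm : 2 ≤ m) {μ : ∀ b, Measure (EuclideanSpace ℝ (Fin (d b)))}
    [∀ b, IsFiniteMeasure (μ b)] {a : ℕ → ∀ b, EuclideanSpace ℝ (Fin (d b)) → ℂ}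
    (ha : ∀ l b, MemLp (a l b) 2 (μ b))
    (hfin : ∑' l, ∏ b, (∫⁻ y, ‖a l b y‖ₑ ^ 2 ∂μ b) ^ (1 / (m : ℝ)) ≠ ⊤) :
    Summable (fun l => ∏ b, ∫ y, ‖a l b y‖ ∂μ b) := by
  have hm' : (2 : ℝ) ≤ m := by exact_mod_cast hm
  have hint : ∀ l b, Integrable (a l b) (μ b) := fun l b => (ha l b).integrable (by norm_num)
  obtain ⟨B, hB⟩ : ∃ B : ℕ → ℝ≥0∞, B = fun l => ∏ b, ∫⁻ y, ‖a l b y‖ₑ ∂μ b := ⟨_, rfl⟩
  have hBr : ∀ l, (B l).toReal = ∏ b, ∫ y, ‖a l b y‖ ∂μ b := by
    intro l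
    rw [hB, ENNReal.toReal_prod]
    apply Finset.prod_congr rfl
    intro k _
    rw [integral_norm_eq_lintegral_enorm (hint l k).1]
  have hBle : ∀ l, B l ≤ (∏ b, (∫⁻ y, ‖a l b y‖ₑ ^ 2 ∂μ b) ^ (1 / (m : ℝ))) ^ ((m : ℝ) / 2) *
      ∏ b, (μ b univ) ^ (1 / 2 : ℝ) := by
    intro l
    rw [hB]
    simp only
    calc ∏ b, ∫⁻ y, ‖a l b y‖ₑ ∂μ b
        ≤ ∏ b, ((∫⁻ y, ‖a l b y‖ₑ ^ 2 ∂μ b) ^ (1 / 2 : ℝ) * (μ b univ) ^ (1 / 2 : ℝ)) := by
          apply Finset.prod_le_prod'
          intro k _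
          exact l1_le (ha l k)
      _ = _ := by
          rw [Finset.prod_mul_distrib]
          congr 1
          rw [← ENNReal.prod_rpow_of_nonneg (by positivity)]
          apply Finset.prod_congr rfl
          intro k _
          rw [← ENNReal.rpow_mul]
          congr 1
          field_simp
  have hV : ∏ b, (μ b univ) ^ (1 / 2 : ℝ) ≠ ⊤ :=
    ENNReal.prod_ne_top (fun k _ => ENNReal.rpow_ne_top_of_nonneg (by norm_num) (measure_ne_top _ _))
  have hsum : ∑' l, B l ≠ ⊤ := by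
    refine ne_top_of_le_ne_top ?_ (ENNReal.tsum_le_tsum hBle)
    rw [ENNReal.tsum_mul_right]
    exact ENNReal.mul_ne_top (tsum_pow_ne_top (by linarith) hfin) hV
  have h2 := ENNReal.summable_toReal hsum
  simpa only [hBr] using h2

/-- the extension operator of a sum of products -/
private theorem TT_sum_le {K : ∀ b, Set (EuclideanSpace ℝ (Fin (d b)))} (hK : ∀ b, IsCompact (K b))
    {γ : ∀ b, EuclideanSpace ℝ (Fin (d b)) → E} (hγ : ∀ b, Measurable (γ b))
    {a : ℕ → ∀ b, EuclideanSpace ℝ (Fin (d b)) → ℂ} (ha : ∀ l b, MemLp (a l b) 2 (volume.restrict (K b)))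
    (hs : Summable (fun l => ∏ b, ∫ y in K b, ‖a l b y‖))
    {f : (∀ b, EuclideanSpace ℝ (Fin (d b))) → ℂ}
    (hf : ∀ᵐ t ∂(Measure.pi (fun b => (volume : Measure (EuclideanSpace ℝ (Fin (d b)))).restrict (K b))),
      f t = ∑' l, ∏ b, a l b (t b)) (x : E) :
    ‖TT (Measure.pi (fun b => (volume : Measure (EuclideanSpace ℝ (Fin (d b)))).restrict (K b)))
      (fun t => ∑ b, γ b (t b)) f x‖ₑ ≤ ∑' l, ∏ b, ‖TT (volume.restrict (K b)) (γ b) (a l b) x‖ₑ := by
  have hfin : ∀ b, IsFiniteMeasure ((volume : Measure (EuclideanSpace ℝ (Fin (d b)))).restrict (K b)) :=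
    fun b => ⟨by simpa using (hK b).measure_lt_top⟩
  have hint : ∀ l b, Integrable (a l b) (volume.restrict (K b)) := fun l b => (ha l b).integrable (by norm_num)
  obtain ⟨F, hF⟩ : ∃ F : ℕ → ∀ b, EuclideanSpace ℝ (Fin (d b)) → ℂ, F = fun l b y => ex x (γ b y) * a l b y := ⟨_, rfl⟩
  have hFi : ∀ l b, Integrable (F l b) (volume.restrict (K b)) := by
    intro l b
    have h2 : Measurable (fun y => ex x (γ b y)) := (measurable_ex (hγ b)).comp (measurable_const.prodMk measurable_id)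
    rw [hF]
    refine Integrable.mono (hint l b) (h2.aestronglyMeasurable.mul (hint l b).1) ?_
    refine Eventually.of_forall fun y => ?_
    simp only [norm_mul, norm_ex, one_mul]
    exact le_rfl
  have hnorm : ∀ l b, ∫ y in K b, ‖F l b y‖ = ∫ y in K b, ‖a l b y‖ := by
    intro l b
    rw [hF]
    simp only [norm_mul, norm_ex, one_mul]
  have h1 : TT (Measure.pi (fun b => (volume : Measure (EuclideanSpace ℝ (Fin (d b)))).restrict (K b)))
      (fun t => ∑ b, γ b (t b)) f x = ∫ t, ∑' l, ∏ b, F l b (t b)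
        ∂(Measure.pi (fun b => (volume : Measure (EuclideanSpace ℝ (Fin (d b)))).restrict (K b))) := by
    unfold TT
    apply integral_congr_ae
    filter_upwards [hf] with t ht
    rw [ht, ex_sum, ← tsum_mul_left]
    apply tsum_congr
    intro l
    rw [hF, Finset.prod_mul_distrib]
  have h2 := hasSum_integral_of_summable_integral_norm
    (μ := Measure.pi (fun b => (volume : Measure (EuclideanSpace ℝ (Fin (d b)))).restrict (K b)))
    (F := fun l t => ∏ b, F l b (t b)) (fun l => Integrable.fintype_prod_dep (hFi l)) (by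
    have e : ∀ l, ∫ t, ‖∏ b, F l b (t b)‖
        ∂(Measure.pi (fun b => (volume : Measure (EuclideanSpace ℝ (Fin (d b)))).restrict (K b))) =
        ∏ b, ∫ y in K b, ‖a l b y‖ := by
      intro l
      simp only [norm_prod]
      rw [integral_fintype_prod_eq_prod (fun b y => ‖F l b y‖)]
      apply Finset.prod_congr rfl
      intro b _
      exact hnorm l b
    simp only [e]
    exact hs)
  rw [h1, ← h2.tsum_eq]
  refine enorm_tsum_le_tsum_enorm.trans (le_of_eq ?_)
  apply tsum_congr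
  intro l
  rw [integral_fintype_prod_eq_prod (fun b y => F l b y), hF]
  unfold TT
  rw [enorm_prod']

end Sums

section Main

variable {ι : Type} [Fintype ι] {n : ℕ} {d : ι → ℕ}

private theorem prod_fib {α M : Type*} [CommMonoid M] [Fintype α] [DecidableEq α] (g : ι → α) (F : ι → M) :
    ∏ i, ∏ b : {b // g b = i}, F b = ∏ b, F b := by
  classical
  rw [← Finset.prod_fiberwise Finset.univ g F]
  apply Finset.prod_congr rfl
  intro i _
  exact (Finset.prod_subtype (Finset.univ.filter (fun b => g b = i)) (by simp) F).symm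

private theorem prod_rpow_sum {α : Type*} (s : Finset α) (w : α → ℝ) (hw : ∀ q ∈ s, 0 ≤ w q) (x : ℝ≥0∞) :
    ∏ q ∈ s, x ^ w q = x ^ ∑ q ∈ s, w q := by
  classical
  induction s using Finset.induction_on with
  | empty => simp
  | insert a s ha ih =>
    rw [Finset.prod_insert ha, Finset.sum_insert ha, ih (fun q hq => hw q (Finset.mem_insert_of_mem hq)),
      ENNReal.rpow_add_of_nonneg _ _ (hw a (Finset.mem_insert_self _ _))
        (Finset.sum_nonneg (fun q hq => hw q (Finset.mem_insert_of_mem hq)))]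

/-- regrouping with weights -/
private theorem regroup {Q : Type*} [Fintype Q] [DecidableEq ι] (G : Q → Finset ι) (w : Q → ℝ) (hw : ∀ q, 0 ≤ w q) (c : ℝ)
    (hc : ∀ b, ∑ q with b ∈ G q, w q = c) (x : ι → ℝ≥0∞) :
    ∏ q, (∏ b ∈ G q, x b) ^ w q = ∏ b, x b ^ c := by
  have h1 : ∀ q, (∏ b ∈ G q, x b) ^ w q = ∏ b, if b ∈ G q then x b ^ w q else 1 := by
    intro q
    rw [← ENNReal.prod_rpow_of_nonneg (hw q), Finset.prod_ite_mem, Finset.univ_inter]
  simp only [h1]
  rw [Finset.prod_comm]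
  apply Finset.prod_congr rfl
  intro b _
  rw [← Finset.prod_filter, prod_rpow_sum _ _ (fun q _ => hw q), hc b]

/-- the estimate for blocks -/
private theorem core_est {m : ℕ} (hm : 0 < m) [DecidableEq ι]
    {K : ∀ b, Set (EuclideanSpace ℝ (Fin (d b)))} (hK : ∀ b, IsCompact (K b))
    {γ : ∀ b, EuclideanSpace ℝ (Fin (d b)) → EuclideanSpace ℝ (Fin (m + 1))} (hγ : ∀ b, ContDiff ℝ 1 (γ b))
    {Q : Type} [Fintype Q] (G : Q → Finset ι) (w : Q → ℝ) (hw : ∀ q, 0 ≤ w q) (hw1 : ∑ q, w q = 1)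
    (hc : ∀ b, ∑ q with b ∈ G q, w q = 1 / (m : ℝ))
    (hg : ∀ q, ∑ b ∈ G q, d b = m + 1)
    (hinj : ∀ q, ∀ t : (∀ b : G q, EuclideanSpace ℝ (Fin (d b))), (∀ b : G q, t b ∈ K b) →
      ∀ v : (∀ b : G q, EuclideanSpace ℝ (Fin (d b))),
        ∑ b : G q, fderiv ℝ (γ b) (t b) (v b) = 0 → v = 0) :
    ∃ D : ℝ≥0∞, D ≠ ⊤ ∧ ∀ f : ∀ b, EuclideanSpace ℝ (Fin (d b)) → ℂ, (∀ b, MemLp (f b) 2 (volume.restrict (K b))) →
      ∫⁻ x : EuclideanSpace ℝ (Fin (m + 1)), ∏ b, ‖TT (volume.restrict (K b)) (γ b) (f b) x‖ₑ ^ (2 / (m : ℝ)) ≤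
        D * ∏ b, (∫⁻ y in K b, ‖f b y‖ₑ ^ 2) ^ (1 / (m : ℝ)) := by
  have hm' : (0 : ℝ) < m := by exact_mod_cast hm
  have hG : ∀ q, ∃ D : ℝ≥0∞, D ≠ ⊤ ∧ ∀ f : ∀ b : G q, EuclideanSpace ℝ (Fin (d b)) → ℂ,
      (∀ b : G q, MemLp (f b) 2 (volume.restrict (K b))) →
      ∫⁻ x : EuclideanSpace ℝ (Fin (m + 1)), ∏ b : G q, ‖TT (volume.restrict (K b)) (γ b) (f b) x‖ₑ ^ 2 ≤
        D * ∏ b : G q, ∫⁻ y in K b, ‖f b y‖ₑ ^ 2 := by
    intro q
    exact group_est (d := fun b : G q => d b) (by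
      rw [finrank_euclideanSpace_fin, Finset.sum_coe_sort (G q) d, hg])
      (fun b => hK b) (fun b => hγ b) (hinj q)
  choose D hD hest using hG
  refine ⟨∏ q, D q ^ w q, ENNReal.prod_ne_top (fun q _ => ENNReal.rpow_ne_top_of_nonneg (hw q) (hD q)),
    fun f hf => ?_⟩
  have hfin : ∀ b, IsFiniteMeasure ((volume : Measure (EuclideanSpace ℝ (Fin (d b)))).restrict (K b)) :=
    fun b => ⟨by simpa using (hK b).measure_lt_top⟩
  have hint : ∀ b, Integrable (f b) (volume.restrict (K b)) := fun b => (hf b).integrable (by norm_num)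
  have e1 : ∀ x : EuclideanSpace ℝ (Fin (m + 1)), ∏ b, ‖TT (volume.restrict (K b)) (γ b) (f b) x‖ₑ ^ (2 / (m : ℝ)) =
      ∏ q, (∏ b ∈ G q, ‖TT (volume.restrict (K b)) (γ b) (f b) x‖ₑ ^ 2) ^ w q := by
    intro x
    rw [regroup G w hw _ hc]
    apply Finset.prod_congr rfl
    intro b _
    rw [← ENNReal.rpow_natCast, ← ENNReal.rpow_mul]
    congr 1
    push_cast
    ring
  simp only [e1]
  have h1 := ENNReal.lintegral_prod_norm_pow_le (μ := (volume : Measure (EuclideanSpace ℝ (Fin (m + 1)))))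
    (Finset.univ : Finset Q)
    (f := fun q x => ∏ b ∈ G q, ‖TT (volume.restrict (K b)) (γ b) (f b) x‖ₑ ^ 2)
    (by
      intro q _
      apply Measurable.aemeasurable
      apply Finset.measurable_fun_prod
      intro b _
      exact (TT_cont _ (hγ b).continuous.measurable (hint b)).enorm.measurable.pow_const 2)
    (p := w) hw1 (fun q _ => hw q)
  refine h1.trans ?_
  calc ∏ q, (∫⁻ x, ∏ b ∈ G q, ‖TT (volume.restrict (K b)) (γ b) (f b) x‖ₑ ^ 2) ^ w q
      ≤ ∏ q, (D q * ∏ b ∈ G q, ∫⁻ y in K b, ‖f b y‖ₑ ^ 2) ^ w q := by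
        apply Finset.prod_le_prod'
        intro q _
        refine ENNReal.rpow_le_rpow ?_ (hw q)
        have h2 := hest q (fun b => f b) (fun b => hf b)
        rw [Finset.prod_coe_sort (G q) (fun b => ∫⁻ y in K b, ‖f b y‖ₑ ^ 2)] at h2
        refine le_trans (le_of_eq ?_) h2
        apply lintegral_congr
        intro x
        rw [Finset.prod_coe_sort (G q) (fun b => ‖TT (volume.restrict (K b)) (γ b) (f b) x‖ₑ ^ 2)]
    _ = (∏ q, D q ^ w q) * ∏ b, (∫⁻ y in K b, ‖f b y‖ₑ ^ 2) ^ (1 / (m : ℝ)) := by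
        rw [← regroup G w hw _ hc, ← Finset.prod_mul_distrib]
        apply Finset.prod_congr rfl
        intro q _
        rw [ENNReal.mul_rpow_of_nonneg _ _ (hw q)]

/-- the extension operator of a function that vanishes almost everywhere -/
private theorem TT_zero {E : Type*} [NormedAddCommGroup E] [InnerProductSpace ℝ E] [FiniteDimensional ℝ E]
    [MeasurableSpace E] [BorelSpace E] {Y : Type*} [MeasurableSpace Y] {ν : Measure Y} {Φ : Y → E} {h : Y → ℂ}
    (hh : ∀ᵐ y ∂ν, h y = 0) (x : E) : TT ν Φ h x = 0 := by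
  unfold TT
  rw [integral_congr_ae (g := fun _ => (0 : ℂ))]
  · simp
  · filter_upwards [hh] with y hy
    rw [hy, mul_zero]

private theorem main_sum {m : ℕ} (hm : 2 ≤ m) [DecidableEq ι] (s : ι → Fin (m + 1))
    {K : ∀ b, Set (EuclideanSpace ℝ (Fin (d b)))} (hK : ∀ b, IsCompact (K b))
    {γ : ∀ b, EuclideanSpace ℝ (Fin (d b)) → EuclideanSpace ℝ (Fin (m + 1))} (hγ : ∀ b, ContDiff ℝ 1 (γ b))
    {Q : Type} [Fintype Q] (G : Q → Finset ι) (w : Q → ℝ) (hw : ∀ q, 0 ≤ w q) (hw1 : ∑ q, w q = 1)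
    (hc : ∀ b, ∑ q with b ∈ G q, w q = 1 / (m : ℝ))
    (hg : ∀ q, ∑ b ∈ G q, d b = m + 1)
    (hinj : ∀ q, ∀ t : (∀ b : G q, EuclideanSpace ℝ (Fin (d b))), (∀ b : G q, t b ∈ K b) →
      ∀ v : (∀ b : G q, EuclideanSpace ℝ (Fin (d b))),
        ∑ b : G q, fderiv ℝ (γ b) (t b) (v b) = 0 → v = 0) :
    ∃ C : ℝ≥0, ∀ (f : ∀ j : Fin (m + 1), (∀ b : {b // s b = j}, EuclideanSpace ℝ (Fin (d b))) → ℂ)
      (a : ℕ → ∀ b, EuclideanSpace ℝ (Fin (d b)) → ℂ), (∀ l b, MemLp (a l b) 2 (volume.restrict (K b))) →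
      (∀ j, ∀ᵐ t ∂(Measure.pi (fun b : {b // s b = j} =>
        (volume : Measure (EuclideanSpace ℝ (Fin (d b)))).restrict (K b))),
        f j t = ∑' l, ∏ b : {b // s b = j}, a l b (t b)) →
      ∫⁻ x : EuclideanSpace ℝ (Fin (m + 1)), ∏ j, ‖TT (Measure.pi (fun b : {b // s b = j} =>
        (volume : Measure (EuclideanSpace ℝ (Fin (d b)))).restrict (K b)))
          (fun t => ∑ b : {b // s b = j}, γ b (t b)) (f j) x‖ₑ ^ (2 / (m : ℝ)) ≤
        C * ∏ j, ∑' l, ∏ b : {b // s b = j}, (∫⁻ y in K b, ‖a l b y‖ₑ ^ 2) ^ (1 / (m : ℝ)) := by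
  have hm0 : 0 < m := by omega
  have hm' : (2 : ℝ) ≤ m := by exact_mod_cast hm
  have hq : (0 : ℝ) < 2 / (m : ℝ) := by positivity
  have hq1 : (2 : ℝ) / (m : ℝ) ≤ 1 := by
    rw [div_le_one (by linarith)]; exact hm'
  obtain ⟨D, hD, hest⟩ := core_est hm0 hK hγ G w hw hw1 hc hg hinj
  refine ⟨D.toNNReal + 1, ?_⟩
  intro f a ha hfa
  have hfin : ∀ b, IsFiniteMeasure ((volume : Measure (EuclideanSpace ℝ (Fin (d b)))).restrict (K b)) :=
    fun b => ⟨by simpa using (hK b).measure_lt_top⟩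
  have hint : ∀ l b, Integrable (a l b) (volume.restrict (K b)) := fun l b => (ha l b).integrable (by norm_num)
  have hCD : D ≤ ((D.toNNReal + 1 : ℝ≥0) : ℝ≥0∞) := by
    rw [ENNReal.coe_add, ENNReal.coe_toNNReal hD]
    exact le_self_add
  have hC0 : ((D.toNNReal + 1 : ℝ≥0) : ℝ≥0∞) ≠ 0 := by
    rw [ENNReal.coe_add]
    simp
  obtain ⟨Y, hY⟩ : ∃ Y : Fin (m + 1) → ℝ≥0∞, Y = fun j => ∑' l, ∏ b : {b // s b = j},
    (∫⁻ y in K b, ‖a l b y‖ₑ ^ 2) ^ (1 / (m : ℝ)) := ⟨_, rfl⟩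
  by_cases h0 : ∃ j, Y j = 0
  · -- one of the functions vanishes
    obtain ⟨j, hj⟩ := h0
    rw [hY] at hj
    simp only [ENNReal.tsum_eq_zero, Finset.prod_eq_zero_iff, Finset.mem_univ, true_and] at hj
    have h2 : ∀ᵐ t ∂(Measure.pi (fun b : {b // s b = j} =>
        (volume : Measure (EuclideanSpace ℝ (Fin (d b)))).restrict (K b))), ∀ l,
        ∏ b : {b // s b = j}, a l b (t b) = 0 := by
      rw [ae_all_iff]
      intro l
      obtain ⟨b, hb⟩ := hj l
      have h3 : ∫⁻ y in K b, ‖a l b y‖ₑ ^ 2 = 0 := by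
        rcases ENNReal.rpow_eq_zero_iff.1 hb with h3 | h3
        · exact h3.1
        · have : (0 : ℝ) < 1 / (m : ℝ) := by positivity
          linarith [h3.2]
      have h4 := (lintegral_eq_zero_iff' ((ha l b).1.enorm.pow_const 2)).1 h3
      have h5 : ∀ᵐ y ∂((volume : Measure (EuclideanSpace ℝ (Fin (d b)))).restrict (K b)), a l b y = 0 := by
        filter_upwards [h4] with y hy
        simpa using hy
      have h6 := (Measure.tendsto_eval_ae_ae (μ := fun b : {b // s b = j} =>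
        (volume : Measure (EuclideanSpace ℝ (Fin (d b)))).restrict (K b)) (i := b)).eventually h5
      filter_upwards [h6] with t ht
      exact Finset.prod_eq_zero (Finset.mem_univ b) ht
    have h3 : ∀ᵐ t ∂(Measure.pi (fun b : {b // s b = j} =>
        (volume : Measure (EuclideanSpace ℝ (Fin (d b)))).restrict (K b))), f j t = 0 := by
      filter_upwards [h2, hfa j] with t ht1 ht2
      rw [ht2]
      simp [ht1]
    have h5 : (fun x : EuclideanSpace ℝ (Fin (m + 1)) => ∏ j, ‖TT (Measure.pi (fun b : {b // s b = j} =>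
        (volume : Measure (EuclideanSpace ℝ (Fin (d b)))).restrict (K b)))
          (fun t => ∑ b : {b // s b = j}, γ b (t b)) (f j) x‖ₑ ^ (2 / (m : ℝ))) = fun _ => 0 := by
      funext x
      apply Finset.prod_eq_zero (Finset.mem_univ j)
      rw [TT_zero h3, enorm_zero, ENNReal.zero_rpow_of_pos hq]
    rw [h5, lintegral_zero]
    exact zero_le
  push Not at h0
  by_cases htop : ∃ j, Y j = ⊤
  · obtain ⟨j, hj⟩ := htop
    have h1 : ∏ j, Y j = ⊤ := by
      rw [← Finset.mul_prod_erase Finset.univ Y (Finset.mem_univ j), hj]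
      exact ENNReal.top_mul (Finset.prod_ne_zero_iff.2 (fun i _ => h0 i))
    rw [hY] at h1
    rw [h1, ENNReal.mul_top hC0]
    exact le_top
  push Not at htop
  have hs : ∀ j, Summable (fun l => ∏ b : {b // s b = j}, ∫ y in K b, ‖a l b y‖) := by
    intro j
    have h1 := htop j
    rw [hY] at h1
    exact summable_l1 (d := fun b : {b // s b = j} => d b) hm
      (μ := fun b : {b // s b = j} => (volume : Measure (EuclideanSpace ℝ (Fin (d b)))).restrict (K b))
      (a := fun l b => a l b) (fun l b => ha l b) h1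
  have hγm : ∀ b, Measurable (γ b) := fun b => (hγ b).continuous.measurable
  have fib : ∀ (H : ℕ → ι → ℝ≥0∞) (L : Fin (m + 1) → ℕ),
      ∏ j, ∏ b : {b // s b = j}, H (L j) b = ∏ b, H (L (s b)) b := by
    intro H L
    rw [← prod_fib s (fun b => H (L (s b)) b)]
    apply Finset.prod_congr rfl
    intro j _
    apply Finset.prod_congr rfl
    intro b _
    rw [b.2]
  have key : ∀ x : EuclideanSpace ℝ (Fin (m + 1)), ∏ j, ‖TT (Measure.pi (fun b : {b // s b = j} =>
        (volume : Measure (EuclideanSpace ℝ (Fin (d b)))).restrict (K b)))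
          (fun t => ∑ b : {b // s b = j}, γ b (t b)) (f j) x‖ₑ ^ (2 / (m : ℝ)) ≤
      ∑' L : Fin (m + 1) → ℕ, ∏ b, ‖TT (volume.restrict (K b)) (γ b) (a (L (s b)) b) x‖ₑ ^ (2 / (m : ℝ)) := by
    intro x
    calc ∏ j, ‖TT (Measure.pi (fun b : {b // s b = j} =>
        (volume : Measure (EuclideanSpace ℝ (Fin (d b)))).restrict (K b)))
          (fun t => ∑ b : {b // s b = j}, γ b (t b)) (f j) x‖ₑ ^ (2 / (m : ℝ))
        ≤ ∏ j, ∑' l, ∏ b : {b // s b = j}, ‖TT (volume.restrict (K b)) (γ b) (a l b) x‖ₑ ^ (2 / (m : ℝ)) := by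
          apply Finset.prod_le_prod'
          intro j _
          have h1 := TT_sum_le (d := fun b : {b // s b = j} => d b) (K := fun b => K b) (fun b => hK b)
            (γ := fun b => γ b) (fun b => hγm b) (a := fun l b => a l b) (fun l b => ha l b) (hs j) (hfa j) x
          refine (ENNReal.rpow_le_rpow h1 hq.le).trans ((tsum_rpow_le hq hq1 _).trans (le_of_eq ?_))
          apply tsum_congr
          intro l
          rw [ENNReal.prod_rpow_of_nonneg hq.le]
      _ = ∑' L : Fin (m + 1) → ℕ, ∏ j, ∏ b : {b // s b = j},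
            ‖TT (volume.restrict (K b)) (γ b) (a (L j) b) x‖ₑ ^ (2 / (m : ℝ)) := prod_tsum_fin _ _
      _ = _ := by
          apply tsum_congr
          intro L
          exact fib (fun l b => ‖TT (volume.restrict (K b)) (γ b) (a l b) x‖ₑ ^ (2 / (m : ℝ))) L
  calc ∫⁻ x : EuclideanSpace ℝ (Fin (m + 1)), ∏ j, ‖TT (Measure.pi (fun b : {b // s b = j} =>
        (volume : Measure (EuclideanSpace ℝ (Fin (d b)))).restrict (K b)))
          (fun t => ∑ b : {b // s b = j}, γ b (t b)) (f j) x‖ₑ ^ (2 / (m : ℝ))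
      ≤ ∫⁻ x : EuclideanSpace ℝ (Fin (m + 1)), ∑' L : Fin (m + 1) → ℕ,
          ∏ b, ‖TT (volume.restrict (K b)) (γ b) (a (L (s b)) b) x‖ₑ ^ (2 / (m : ℝ)) := lintegral_mono key
    _ = ∑' L : Fin (m + 1) → ℕ, ∫⁻ x : EuclideanSpace ℝ (Fin (m + 1)),
          ∏ b, ‖TT (volume.restrict (K b)) (γ b) (a (L (s b)) b) x‖ₑ ^ (2 / (m : ℝ)) := by
        apply lintegral_tsum
        intro L
        apply Measurable.aemeasurable
        apply Finset.measurable_fun_prod
        intro b _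
        exact (TT_cont _ (hγm b) (hint _ b)).enorm.measurable.pow_const _
    _ ≤ ∑' L : Fin (m + 1) → ℕ, D * ∏ b, (∫⁻ y in K b, ‖a (L (s b)) b y‖ₑ ^ 2) ^ (1 / (m : ℝ)) := by
        apply ENNReal.tsum_le_tsum
        intro L
        exact hest (fun b => a (L (s b)) b) (fun b => ha _ b)
    _ = D * ∏ j, ∑' l, ∏ b : {b // s b = j}, (∫⁻ y in K b, ‖a l b y‖ₑ ^ 2) ^ (1 / (m : ℝ)) := by
        rw [ENNReal.tsum_mul_left, prod_tsum_fin]
        congr 1
        apply tsum_congr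
        intro L
        exact (fib (fun l b => (∫⁻ y in K b, ‖a l b y‖ₑ ^ 2) ^ (1 / (m : ℝ))) L).symm
    _ ≤ _ := by
        gcongr

/-- the weights of the groups have sum one -/
private theorem sum_weights {m : ℕ} (hm : 0 < m) [DecidableEq ι] (s : ι → Fin (m + 1))
    (hs : ∀ j, ∑ b with s b = j, d b = m)
    {Q : Type} [Fintype Q] (G : Q → Finset ι) (w : Q → ℝ)
    (hc : ∀ b, ∑ q with b ∈ G q, w q = 1 / (m : ℝ))
    (hg : ∀ q, ∑ b ∈ G q, d b = m + 1) : ∑ q, w q = 1 := by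
  have hm' : (0 : ℝ) < m := by exact_mod_cast hm
  have e1 : ∑ b, (d b : ℝ) = ((m : ℝ) + 1) * m := by
    rw [← Finset.sum_fiberwise Finset.univ s (fun b => (d b : ℝ))]
    have h1 : ∀ j, ∑ b with s b = j, (d b : ℝ) = m := by
      intro j
      have h2 := hs j
      exact_mod_cast h2
    simp only [h1, Finset.sum_const, Finset.card_univ, Fintype.card_fin, nsmul_eq_mul]
    push_cast
    ring
  have e2 : ∑ q, w q * ((m : ℝ) + 1) = ∑ b, (∑ q with b ∈ G q, w q) * (d b : ℝ) := by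
    calc ∑ q, w q * ((m : ℝ) + 1) = ∑ q, ∑ b ∈ G q, w q * (d b : ℝ) := by
          apply Finset.sum_congr rfl
          intro q _
          rw [← Finset.mul_sum]
          congr 1
          exact_mod_cast (hg q).symm
      _ = ∑ q, ∑ b, (if b ∈ G q then w q * (d b : ℝ) else 0) := by
          apply Finset.sum_congr rfl
          intro q _
          rw [Finset.sum_ite_mem, Finset.univ_inter]
      _ = ∑ b, ∑ q, (if b ∈ G q then w q * (d b : ℝ) else 0) := Finset.sum_comm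
      _ = _ := by
          apply Finset.sum_congr rfl
          intro b _
          rw [Finset.sum_mul, Finset.sum_filter]
  simp only [hc, ← Finset.sum_mul, ← Finset.mul_sum, e1] at e2
  have h3 : (m : ℝ) + 1 ≠ 0 := by positivity
  have h4 : (∑ q, w q) * ((m : ℝ) + 1) = 1 * ((m : ℝ) + 1) := by
    rw [e2]
    field_simp
  exact mul_right_cancel₀ h3 h4

end Main

/-- the Fourier extension operator of the patch `Γ` over the set `U` in a product `∏_b ℝ^(d b)` of Euclidean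
spaces (with Lebesgue measure) -/
noncomputable def extOp {κ : Type} [Fintype κ] {d : κ → ℕ} {n : ℕ}
    (U : Set (∀ b, EuclideanSpace ℝ (Fin (d b))))
    (Γ : (∀ b, EuclideanSpace ℝ (Fin (d b))) → EuclideanSpace ℝ (Fin n))
    (f : (∀ b, EuclideanSpace ℝ (Fin (d b))) → ℂ) (x : EuclideanSpace ℝ (Fin n)) : ℂ :=
  ∫ t in U, Complex.exp (2 * Real.pi * Complex.I * ((inner ℝ x (Γ t) : ℝ) : ℂ)) * f t

/-- the square of the `L²` norm of `f` over `U` -/
noncomputable def l2sq {α : Type} [MeasureSpace α] (U : Set α) (f : α → ℂ) : ENNReal :=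
  ∫⁻ t in U, ‖f t‖ₑ ^ (2 : ℝ)

/-- a group `S` of blocks is transversal: the dimensions of its blocks have sum `n`, and at all points of the
sets `K b` the tangent spaces of its blocks are linearly independent -/
def TransversalGroup {ι : Type} {d : ι → ℕ} {n : ℕ} (K : ∀ b, Set (EuclideanSpace ℝ (Fin (d b))))
    (γ : ∀ b, EuclideanSpace ℝ (Fin (d b)) → EuclideanSpace ℝ (Fin n)) (S : Finset ι) : Prop :=
  ∑ b ∈ S, d b = n ∧
    ∀ t : (∀ b : S, EuclideanSpace ℝ (Fin (d b))), (∀ b : S, t b ∈ K b) →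
      ∀ v : (∀ b : S, EuclideanSpace ℝ (Fin (d b))), ∑ b : S, fderiv ℝ (γ b) (t b) (v b) = 0 → v = 0

/-- **Endpoint multilinear extension inequality, tensor structure shared by several inputs.**
Blocks `b ∈ ι` of dimension `d b`, compact sets `K b`, `C¹` maps `γ b`; the patch `j` consists of the blocks
with `s b = j` and has dimension `n - 1`; `G q` (`q ∈ Q`) are transversal groups of blocks with weights
`w q ≥ 0`, and every block is covered with total weight `1 / (n - 1)`.  The input `f j` is a sum of products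
of functions of the blocks of the patch `j`. -/
theorem result (n : ℕ) (hn : 3 ≤ n) {ι : Type} [Fintype ι] [DecidableEq ι] (d : ι → ℕ)
    (K : ∀ b, Set (EuclideanSpace ℝ (Fin (d b)))) (hK : ∀ b, IsCompact (K b))
    (γ : ∀ b, EuclideanSpace ℝ (Fin (d b)) → EuclideanSpace ℝ (Fin n)) (hγ : ∀ b, ContDiff ℝ 1 (γ b))
    (s : ι → Fin n) (hs : ∀ j, ∑ b with s b = j, d b = n - 1)
    {Q : Type} [Fintype Q] (G : Q → Finset ι) (hG : ∀ q, TransversalGroup K γ (G q))
    (w : Q → ℝ) (hw : ∀ q, 0 ≤ w q) (hc : ∀ b, ∑ q with b ∈ G q, w q = (1 : ℝ) / (n - 1)) :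
    ∃ C : NNReal, ∀ (f : ∀ j, (∀ b : {b // s b = j}, EuclideanSpace ℝ (Fin (d b))) → ℂ)
      (a : ℕ → ∀ b, EuclideanSpace ℝ (Fin (d b)) → ℂ),
      (∀ l b, MemLp (a l b) 2 (volume.restrict (K b))) →
      (∀ j, ∀ᵐ t ∂(volume.restrict (univ.pi fun b : {b // s b = j} => K b)),
        f j t = ∑' l, ∏ b : {b // s b = j}, a l b (t b)) →
      ∫⁻ x, ∏ j, ‖extOp (univ.pi fun b : {b // s b = j} => K b) (fun t => ∑ b : {b // s b = j}, γ b (t b))
          (f j) x‖ₑ ^ ((2 : ℝ) / (n - 1))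
        ≤ C * ∏ j, ∑' l, ∏ b : {b // s b = j}, l2sq (K b) (a l b) ^ ((1 : ℝ) / (n - 1)) := by
  obtain ⟨m, rfl⟩ : ∃ m, n = m + 1 := ⟨n - 1, by omega⟩
  have hm : 2 ≤ m := by omega
  have hm0 : 0 < m := by omega
  have e1 : ((m + 1 : ℕ) : ℝ) - 1 = m := by push_cast; ring
  have e2 : ∀ z : ℝ≥0∞, z ^ (2 : ℝ) = z ^ 2 := fun z => by
    rw [← ENNReal.rpow_natCast]; norm_num
  have e3 : ∀ j, (volume : Measure (∀ b : {b // s b = j}, EuclideanSpace ℝ (Fin (d b)))).restrict
      (univ.pi fun b : {b // s b = j} => K b) = Measure.pi (fun b : {b // s b = j} =>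
        (volume : Measure (EuclideanSpace ℝ (Fin (d b)))).restrict (K b)) := by
    intro j
    rw [volume_pi, Measure.restrict_pi_pi]
  rw [e1] at hc ⊢
  have hw1 := sum_weights hm0 s (by simpa using hs) G w hc (fun q => (hG q).1)
  obtain ⟨C, h⟩ := main_sum hm s hK hγ G w hw hw1 hc (fun q => (hG q).1) (fun q => (hG q).2)
  unfold extOp l2sq
  simp only [e2, e3]
  exact ⟨C, h⟩

end Pool.Agent.Results.MP_c3fd65_an.BlockInputs
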