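import Mathlib

/-!
# MP_c3fd65_an: the endpoint multilinear extension inequality, one input in a projective tensor product

Let `S_1, ..., S_n` (`n ≥ 3`) be a transversal family of compact hypersurface patches, one of which,
`S_{j₀}`, is of translation type, `Γ_{j₀}(t) = γ_1(t_1) + ... + γ_{n-1}(t_{n-1})` over a box.  Then the
endpoint inequality holds for all `f_j ∈ L²` with `j ≠ j₀` and all product functions
`f_{j₀}(t) = a_1(t_1) ⋯ a_{n-1}(t_{n-1})`, and more generally with `‖f_{j₀}‖_2^{2/(n-1)}` replaced by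
`∑_l ∏_k ‖a_{l,k}‖_2^{2/(n-1)}` for every expansion `f_{j₀} = ∑_l ∏_k a_{l,k}(t_k)`.

Proof.  For a product function `E_{j₀} f_{j₀}` is the product of the `n - 1` curve extensions of the
`a_k`.  Whenever a curve `γ_k` is transversal to `S_j`, the map `(t, s) ↦ Γ_j(t) + γ_k(s)` is a local
diffeomorphism and `‖E_j f_j · E_k a_k‖_2 ≤ C ‖f_j‖_2 ‖a_k‖_2` by Plancherel.  The determinant of the
matrix of the numbers `ω_j · γ_k'` (`j ≠ j₀`) is bounded below, so locally some permutation `σ` pairs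
each `S_j` with a transversal curve; Hoelder's inequality over the `n - 1` pairs finishes the proof.
-/

set_option autoImplicit false
set_option linter.unusedSectionVars false

namespace Pool.Agent.Results.MP_c3fd65_an.ProductInput

open MeasureTheory Set Filter Topology Complex FourierTransform
open scoped ENNReal NNReal ContDiff SchwartzMap

section Planch

variable {E : Type*} [NormedAddCommGroup E] [InnerProductSpace ℝ E] [FiniteDimensional ℝ E]
  [MeasurableSpace E] [BorelSpace E]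

/-- the `L²` Fourier transform agrees with the Fourier integral on `L¹ ∩ L²` -/
private lemma fourier_toLp_ae {f : E → ℂ} (hf1 : Integrable f) (hf2 : MemLp f 2) :
    (𝓕 (hf2.toLp f) : Lp ℂ 2 (volume : Measure E)) =ᵐ[volume] 𝓕 f := by
  have hcont : Continuous (𝓕 f) :=
    VectorFourier.fourierIntegral_continuous Real.continuous_fourierChar
      (by exact continuous_inner) hf1
  refine ae_eq_of_integral_contDiff_smul_eq ?_ hcont.locallyIntegrable ?_
  · exact (Lp.memLp _).locallyIntegrable (by norm_num)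
  · intro g g_smooth g_cpt
    have hg₁ : HasCompactSupport (Complex.ofRealCLM ∘ g) := g_cpt.comp_left rfl
    have hg₂ : ContDiff ℝ ∞ (Complex.ofRealCLM ∘ g) := by fun_prop
    set ψ : 𝓢(E, ℂ) := hg₁.toSchwartzMap hg₂ with hψ
    have h1 := congrArg (fun T : 𝓢'(E, ℂ) => T ψ)
      (Lp.fourier_toTemperedDistribution_eq (hf2.toLp f))
    simp only [TemperedDistribution.fourier_apply, Lp.toTemperedDistribution_apply] at h1
    have h2 : ∫ x : E, (𝓕 ψ) x • (hf2.toLp f : E → ℂ) x = ∫ x : E, (𝓕 ψ) x • f x := by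
      refine integral_congr_ae ?_
      filter_upwards [hf2.coeFn_toLp] with x hx
      rw [hx]
    have h3 : ∫ x : E, (𝓕 ψ) x • f x = ∫ x : E, ψ x • 𝓕 f x := by
      have := VectorFourier.integral_fourierIntegral_smul_eq_flip (μ := (volume : Measure E))
        (ν := (volume : Measure E)) (L := innerₗ E) (f := (ψ : E → ℂ)) (g := f)
        Real.continuous_fourierChar continuous_inner ψ.integrable hf1
      rw [flip_innerₗ] at this
      exact this
    have h4 : ∀ (F : E → ℂ), ∫ x : E, g x • F x = ∫ x : E, ψ x • F x := by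
      intro F
      refine integral_congr_ae (Eventually.of_forall fun x => ?_)
      simp [hψ]
    rw [h4, h4, ← h3, ← h2, h1]

private theorem plancherel {f : E → ℂ} (hf1 : Integrable f) (hf2 : MemLp f 2) :
    eLpNorm (𝓕 f) 2 = eLpNorm f 2 := by
  rw [← eLpNorm_congr_ae (fourier_toLp_ae hf1 hf2)]
  have h1 := Lp.norm_fourier_eq (hf2.toLp f)
  rw [Lp.norm_def, Lp.norm_def] at h1
  have h2 := (ENNReal.toReal_eq_toReal_iff' (Lp.eLpNorm_ne_top _) (Lp.eLpNorm_ne_top _)).mp h1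
  rw [h2, eLpNorm_congr_ae hf2.coeFn_toLp]

private theorem lint_sq_eq {α : Type*} [MeasurableSpace α] {μ : Measure α} (f : α → ℂ) :
    ∫⁻ x, ‖f x‖ₑ ^ 2 ∂μ = (eLpNorm f 2 μ) ^ 2 := by
  rw [eLpNorm_eq_lintegral_rpow_enorm_toReal (by norm_num) (by norm_num)]
  simp only [ENNReal.toReal_ofNat]
  rw [← ENNReal.rpow_natCast, ← ENNReal.rpow_mul]
  norm_num

/-- Plancherel, for the kernel of the problem -/
private theorem planch_lint {g : E → ℂ} (hf1 : Integrable g) (hf2 : MemLp g 2) :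
    ∫⁻ ξ : E, ‖∫ x : E, Complex.exp (2 * Real.pi * Complex.I * ((inner ℝ x ξ : ℝ) : ℂ)) * g x‖ₑ ^ 2
      = ∫⁻ x, ‖g x‖ₑ ^ 2 := by
  have e : ∀ ξ : E, ∫ x : E, Complex.exp (2 * Real.pi * Complex.I * ((inner ℝ x ξ : ℝ) : ℂ)) * g x
      = 𝓕 g (-ξ) := by
    intro ξ
    rw [Real.fourier_eq']
    apply integral_congr_ae
    refine Eventually.of_forall fun x => ?_
    simp only [smul_eq_mul, inner_neg_right]
    congr 2
    push_cast
    ring
  simp only [e]
  rw [lint_sq_eq, lint_sq_eq, ← plancherel hf1 hf2]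
  have h := (Measure.measurePreserving_neg (volume : Measure E))
  have h2 : eLpNorm (fun ξ : E => 𝓕 g (-ξ)) 2 volume = eLpNorm (𝓕 g) 2 volume := by
    have hcont : Continuous (𝓕 g) :=
      VectorFourier.fourierIntegral_continuous Real.continuous_fourierChar
        (by exact continuous_inner) hf1
    exact eLpNorm_comp_measurePreserving hcont.aestronglyMeasurable h
  rw [h2]

end Planch


section Dual

variable {E : Type*} [NormedAddCommGroup E] [InnerProductSpace ℝ E] [FiniteDimensional ℝ E]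
  [MeasurableSpace E] [BorelSpace E]
variable {Y : Type*} [MeasurableSpace Y]

/-- the exponential -/
private noncomputable def ex (x ξ : E) : ℂ := Complex.exp (2 * Real.pi * Complex.I * ((inner ℝ x ξ : ℝ) : ℂ))

private theorem norm_ex (x ξ : E) : ‖ex x ξ‖ = 1 := by
  unfold ex
  rw [show (2 * Real.pi * Complex.I * ((inner ℝ x ξ : ℝ) : ℂ) : ℂ) = ((2 * Real.pi * inner ℝ x ξ : ℝ) : ℂ) * Complex.I by
    push_cast; ring]
  exact Complex.norm_exp_ofReal_mul_I _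

private theorem ex_add (x ξ η : E) : ex x (ξ + η) = ex x ξ * ex x η := by
  unfold ex
  rw [← Complex.exp_add, inner_add_right]
  congr 1
  push_cast
  ring

private theorem continuous_ex : Continuous (fun p : E × E => ex p.1 p.2) := by
  unfold ex
  fun_prop

private theorem measurable_ex {Φ : Y → E} (hΦ : Measurable Φ) : Measurable (fun p : E × Y => ex p.1 (Φ p.2)) :=
  continuous_ex.measurable.comp (measurable_fst.prodMk (hΦ.comp measurable_snd))

/-- the extension operator of a measure -/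
private noncomputable def TT (ν : Measure Y) (Φ : Y → E) (h : Y → ℂ) (x : E) : ℂ := ∫ y, ex x (Φ y) * h y ∂ν

private theorem TT_bound (ν : Measure Y) (Φ : Y → E) (h : Y → ℂ) (x : E) :
    ‖TT ν Φ h x‖ ≤ ∫ y, ‖h y‖ ∂ν := by
  unfold TT
  refine (norm_integral_le_integral_norm _).trans (le_of_eq ?_)
  apply integral_congr_ae
  refine Eventually.of_forall fun y => ?_
  simp only [norm_mul, norm_ex, one_mul]

private theorem TT_cont (ν : Measure Y) {Φ : Y → E} (hΦ : Measurable Φ) {h : Y → ℂ} (h1 : Integrable h ν) :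
    Continuous (TT ν Φ h) := by
  unfold TT
  apply continuous_of_dominated (bound := fun y => ‖h y‖)
  · intro x
    apply AEStronglyMeasurable.mul _ h1.1
    exact (measurable_ex hΦ |>.comp (measurable_const.prodMk measurable_id)).aestronglyMeasurable
  · intro x
    refine Eventually.of_forall fun y => ?_
    simp only [norm_mul, norm_ex, one_mul]
    exact le_rfl
  · exact h1.norm
  · refine Eventually.of_forall fun y => ?_
    have : Continuous (fun x : E => ex x (Φ y)) := continuous_ex.comp (continuous_id.prodMk continuous_const)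
    exact this.mul continuous_const

private theorem dual_ball (ν : Measure Y) [SFinite ν] {Φ : Y → E} (hΦ : Measurable Φ) (D : ℝ≥0∞)
    (hν : ∀ B, MeasurableSet B → ν (Φ ⁻¹' B) ≤ D * volume B) {h : Y → ℂ} (h1 : Integrable h ν) (R : ℝ) :
    ∫⁻ x in Metric.closedBall (0 : E) R, ‖TT ν Φ h x‖ₑ ^ 2 ≤ D * ∫⁻ y, ‖h y‖ₑ ^ 2 ∂ν := by
  obtain ⟨φ, hφ⟩ : ∃ φ : E → ℂ, φ = (Metric.closedBall (0 : E) R).indicator (fun x => (starRingEnd ℂ) (TT ν Φ h x)) :=
    ⟨_, rfl⟩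
  have hTc := TT_cont ν hΦ h1
  have hball : MeasurableSet (Metric.closedBall (0 : E) R) := Metric.isClosed_closedBall.measurableSet
  have hfin : volume (Metric.closedBall (0 : E) R) < ⊤ := measure_closedBall_lt_top
  have hφL : ∀ p : ℝ≥0∞, MemLp φ p volume := by
    intro p
    rw [hφ, memLp_indicator_iff_restrict hball]
    have : IsFiniteMeasure ((volume : Measure E).restrict (Metric.closedBall (0 : E) R)) := ⟨by simpa using hfin⟩
    apply MemLp.of_bound (C := ∫ y, ‖h y‖ ∂ν)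
    · exact (Complex.continuous_conj.comp hTc).aestronglyMeasurable
    · refine Eventually.of_forall fun x => ?_
      rw [RCLike.norm_conj]
      exact TT_bound ν Φ h x
  have hφ1 : Integrable φ := memLp_one_iff_integrable.1 (hφL 1)
  have hφ2 : MemLp φ 2 := hφL 2
  obtain ⟨ψ, hψ⟩ : ∃ ψ : E → ℂ, ψ = fun ξ => ∫ x : E, ex x ξ * φ x := ⟨_, rfl⟩
  have hψm : Measurable ψ := by
    rw [hψ]
    have : Continuous (fun ξ : E => ∫ x : E, ex x ξ * φ x) := by
      apply continuous_of_dominated (bound := fun x => ‖φ x‖)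
      · intro ξ
        apply AEStronglyMeasurable.mul _ hφ1.1
        exact (continuous_ex.comp (continuous_id.prodMk continuous_const)).aestronglyMeasurable
      · intro ξ
        refine Eventually.of_forall fun x => ?_
        simp only [norm_mul, norm_ex, one_mul]
        exact le_rfl
      · exact hφ1.norm
      · refine Eventually.of_forall fun x => ?_
        have : Continuous (fun ξ : E => ex x ξ) := continuous_ex.comp (continuous_const.prodMk continuous_id)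
        exact this.mul continuous_const
    exact this.measurable
  obtain ⟨IR, hIR⟩ : ∃ IR : ℝ≥0∞, IR = ∫⁻ x in Metric.closedBall (0 : E) R, ‖TT ν Φ h x‖ₑ ^ 2 := ⟨_, rfl⟩
  obtain ⟨HH, hHH⟩ : ∃ HH : ℝ≥0∞, HH = ∫⁻ y, ‖h y‖ₑ ^ 2 ∂ν := ⟨_, rfl⟩
  have eφ : ∫⁻ x, ‖φ x‖ₑ ^ 2 = IR := by
    rw [hIR, ← lintegral_indicator hball]
    apply lintegral_congr
    intro x
    rw [hφ]
    by_cases hx : x ∈ Metric.closedBall (0 : E) R
    · rw [indicator_of_mem hx, indicator_of_mem hx, RCLike.enorm_conj]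
    · rw [indicator_of_notMem hx, indicator_of_notMem hx]
      simp
  have eψ : ∫⁻ ξ, ‖ψ ξ‖ₑ ^ 2 = IR := by
    rw [← eφ, ← planch_lint hφ1 hφ2, hψ]
    rfl
  have hIRfin : IR ≠ ⊤ := by
    rw [← eφ, lint_sq_eq]
    exact ENNReal.pow_ne_top hφ2.2.ne
  -- Fubini
  have hF : Integrable (fun p : E × Y => ex p.1 (Φ p.2) * (φ p.1 * h p.2)) (volume.prod ν) := by
    have h3 : Integrable (fun p : E × Y => φ p.1 * h p.2) (volume.prod ν) := hφ1.mul_prod h1
    refine h3.mono ((measurable_ex hΦ).aestronglyMeasurable.mul h3.1) ?_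
    refine Eventually.of_forall fun p => ?_
    rw [norm_mul, norm_ex, one_mul]
  have e1 : ∫ x, TT ν Φ h x * φ x = ∫ y, h y * ψ (Φ y) ∂ν := by
    have a1 : ∀ x, TT ν Φ h x * φ x = ∫ y, ex x (Φ y) * (φ x * h y) ∂ν := by
      intro x
      unfold TT
      rw [← integral_mul_const]
      congr 1
      funext y
      ring
    have a2 : ∀ y, h y * ψ (Φ y) = ∫ x, ex x (Φ y) * (φ x * h y) := by
      intro y
      rw [hψ]
      simp only
      rw [← integral_const_mul]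
      congr 1
      funext x
      ring
    simp only [a1, a2]
    exact integral_integral_swap hF
  have e2 : ∫ x, TT ν Φ h x * φ x = ((IR.toReal : ℝ) : ℂ) := by
    have a1 : ∀ x, TT ν Φ h x * φ x = ((‖φ x‖ ^ 2 : ℝ) : ℂ) := by
      intro x
      rw [hφ]
      by_cases hx : x ∈ Metric.closedBall (0 : E) R
      · rw [indicator_of_mem hx, RCLike.norm_conj, Complex.mul_conj, Complex.normSq_eq_norm_sq]
      · rw [indicator_of_notMem hx]; simp
    simp only [a1]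
    refine (integral_ofReal (𝕜 := ℂ) (f := fun x : E => ‖φ x‖ ^ 2)).trans ?_
    congr 1
    rw [integral_eq_lintegral_of_nonneg_ae (Eventually.of_forall fun x => by positivity)
      (by exact (hφ2.1.norm.pow 2))]
    rw [← eφ]
    congr 1
    apply lintegral_congr
    intro x
    rw [ENNReal.ofReal_pow (norm_nonneg _), ofReal_norm]
  have e3 : IR ≤ ∫⁻ y, ‖h y‖ₑ * ‖ψ (Φ y)‖ₑ ∂ν := by
    have b1 : ‖∫ y, h y * ψ (Φ y) ∂ν‖ₑ ≤ ∫⁻ y, ‖h y * ψ (Φ y)‖ₑ ∂ν := enorm_integral_le_lintegral_enorm _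
    rw [← e1, e2] at b1
    have b2 : ‖((IR.toReal : ℝ) : ℂ)‖ₑ = IR := by
      rw [← ofReal_norm, Complex.norm_real, Real.norm_eq_abs, abs_of_nonneg ENNReal.toReal_nonneg,
        ENNReal.ofReal_toReal hIRfin]
    rw [b2] at b1
    simpa only [enorm_mul] using b1
  have e4 : ∫⁻ y, ‖h y‖ₑ * ‖ψ (Φ y)‖ₑ ∂ν ≤ HH ^ (1 / 2 : ℝ) * (D * IR) ^ (1 / 2 : ℝ) := by
    have c1 := ENNReal.lintegral_mul_le_Lp_mul_Lq ν (Real.HolderConjugate.two_two) (f := fun y => ‖h y‖ₑ)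
      (g := fun y => ‖ψ (Φ y)‖ₑ) h1.1.enorm (by
        exact ((hψm.comp hΦ).enorm).aemeasurable)
    refine c1.trans ?_
    have c2 : ∫⁻ y, ‖h y‖ₑ ^ (2 : ℝ) ∂ν = HH := by
      rw [hHH]
      apply lintegral_congr
      intro y
      rw [← ENNReal.rpow_natCast]
      norm_num
    have c3 : ∫⁻ y, ‖ψ (Φ y)‖ₑ ^ (2 : ℝ) ∂ν ≤ D * IR := by
      have d1 : ∫⁻ y, ‖ψ (Φ y)‖ₑ ^ (2 : ℝ) ∂ν = ∫⁻ ξ, ‖ψ ξ‖ₑ ^ 2 ∂(ν.map Φ) := by
        rw [lintegral_map (by fun_prop) hΦ]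
        apply lintegral_congr
        intro y
        rw [← ENNReal.rpow_natCast]
        norm_num
      rw [d1, ← eψ, ← smul_eq_mul, ← lintegral_smul_measure]
      apply lintegral_mono' _ le_rfl
      rw [Measure.le_iff]
      intro B hB
      rw [Measure.map_apply hΦ hB, Measure.smul_apply, smul_eq_mul]
      exact hν B hB
    rw [c2]
    gcongr
  have e5 : IR ≤ HH ^ (1 / 2 : ℝ) * (D * IR) ^ (1 / 2 : ℝ) := e3.trans e4
  rw [← hIR, ← hHH]
  have e6 : IR ^ 2 ≤ HH * (D * IR) := by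
    calc IR ^ 2 ≤ (HH ^ (1 / 2 : ℝ) * (D * IR) ^ (1 / 2 : ℝ)) ^ 2 := by gcongr
      _ = HH * (D * IR) := by
          rw [mul_pow, ← ENNReal.rpow_natCast, ← ENNReal.rpow_natCast, ← ENNReal.rpow_mul, ← ENNReal.rpow_mul]
          norm_num
  by_cases h0 : IR = 0
  · rw [h0]; exact zero_le
  · have e7 : IR * IR ≤ (D * HH) * IR := by
      calc IR * IR = IR ^ 2 := by ring
        _ ≤ HH * (D * IR) := e6
        _ = _ := by ring
    exact (ENNReal.mul_le_mul_iff_left h0 hIRfin).1 e7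

private theorem dual_l2 (ν : Measure Y) [SFinite ν] {Φ : Y → E} (hΦ : Measurable Φ) (D : ℝ≥0∞)
    (hν : ∀ B, MeasurableSet B → ν (Φ ⁻¹' B) ≤ D * volume B) {h : Y → ℂ} (h1 : Integrable h ν) :
    ∫⁻ x : E, ‖TT ν Φ h x‖ₑ ^ 2 ≤ D * ∫⁻ y, ‖h y‖ₑ ^ 2 ∂ν := by
  have e : (univ : Set E) = ⋃ n : ℕ, Metric.closedBall (0 : E) n := by
    symm
    exact Metric.iUnion_closedBall_nat 0
  rw [← setLIntegral_univ, e, setLIntegral_iUnion_of_directed]
  · apply iSup_le
    intro n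
    exact dual_ball ν hΦ D hν h1 n
  · apply Monotone.directed_le
    intro a b hab
    apply Metric.closedBall_subset_closedBall
    exact_mod_cast hab

end Dual


section Pair

variable {E : Type*} [NormedAddCommGroup E] [InnerProductSpace ℝ E] [FiniteDimensional ℝ E]
  [MeasurableSpace E] [BorelSpace E]

open Measure in
private theorem vol_preimage_le {F E : Type*} [NormedAddCommGroup F] [NormedSpace ℝ F] [FiniteDimensional ℝ F]
    [MeasurableSpace F] [BorelSpace F] [NormedAddCommGroup E] [NormedSpace ℝ E] [FiniteDimensional ℝ E]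
    [MeasurableSpace E] [BorelSpace E] (hd : Module.finrank ℝ F = Module.finrank ℝ E)
    (μF : Measure F) [IsAddHaarMeasure μF] (μE : Measure E) [IsAddHaarMeasure μE]
    {Φ : F → E} {S : Set F} {K : ℝ≥0} (hΦ : AntilipschitzWith K (S.domRestrict Φ)) :
    ∃ D : ℝ≥0∞, D ≠ ⊤ ∧ ∀ B : Set E, μF (S ∩ Φ ⁻¹' B) ≤ D * μE B := by
  have h1 : μF = addHaarScalarFactor μF (μH[Module.finrank ℝ F]) • (μH[Module.finrank ℝ F] : Measure F) :=
    isAddLeftInvariant_eq_smul _ _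
  have h2 : (μH[Module.finrank ℝ E] : Measure E) = addHaarScalarFactor (μH[Module.finrank ℝ E]) μE • μE :=
    isAddLeftInvariant_eq_smul _ _
  obtain ⟨c1, hc1⟩ : ∃ c1 : ℝ≥0, c1 = addHaarScalarFactor μF (μH[Module.finrank ℝ F]) := ⟨_, rfl⟩
  obtain ⟨c2, hc2⟩ : ∃ c2 : ℝ≥0, c2 = addHaarScalarFactor (μH[Module.finrank ℝ E]) μE := ⟨_, rfl⟩
  refine ⟨c1 * ((K : ℝ≥0∞) ^ (Module.finrank ℝ F : ℝ) * c2), ?_, ?_⟩
  · exact ENNReal.mul_ne_top ENNReal.coe_ne_top (ENNReal.mul_ne_top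
      (ENNReal.rpow_ne_top_of_nonneg (by positivity) ENNReal.coe_ne_top) ENNReal.coe_ne_top)
  · intro B
    have e1 : S ∩ Φ ⁻¹' B = Subtype.val '' ((S.domRestrict Φ) ⁻¹' B) := by
      ext x
      simp only [mem_inter_iff, mem_preimage, mem_image, Set.domRestrict_apply, Subtype.exists]
      constructor
      · rintro ⟨a, b⟩; exact ⟨x, a, b, rfl⟩
      · rintro ⟨y, a, b, rfl⟩; exact ⟨a, b⟩
    have e2 : (μH[Module.finrank ℝ F] : Measure F) (S ∩ Φ ⁻¹' B) ≤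
        (K : ℝ≥0∞) ^ (Module.finrank ℝ F : ℝ) * (μH[Module.finrank ℝ E] : Measure E) B := by
      rw [e1, isometry_subtype_coe.hausdorffMeasure_image (Or.inl (by positivity)), ← hd]
      exact hΦ.hausdorffMeasure_preimage_le (by positivity) B
    calc μF (S ∩ Φ ⁻¹' B) = c1 * (μH[Module.finrank ℝ F] : Measure F) (S ∩ Φ ⁻¹' B) := by
          conv_lhs => rw [h1]
          rw [Measure.smul_apply, hc1]; rfl
      _ ≤ c1 * ((K : ℝ≥0∞) ^ (Module.finrank ℝ F : ℝ) * (μH[Module.finrank ℝ E] : Measure E) B) := by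
          gcongr
      _ = c1 * ((K : ℝ≥0∞) ^ (Module.finrank ℝ F : ℝ) * (c2 * μE B)) := by
          conv_lhs => rw [h2]
          rw [Measure.smul_apply, hc2]; rfl
      _ = _ := by ring

/-- local bound of the density at a point where the derivative is injective -/
private theorem local_bound {F : Type*} [NormedAddCommGroup F] [NormedSpace ℝ F] [FiniteDimensional ℝ F]
    [MeasurableSpace F] [BorelSpace F] (hd : Module.finrank ℝ F = Module.finrank ℝ E)
    (μF : Measure F) [μF.IsAddHaarMeasure] {Φ : F → E} {Φ' : F →L[ℝ] E} {p : F}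
    (h : HasStrictFDerivAt Φ Φ' p) (hinj : Function.Injective Φ') :
    ∃ O : Set F, IsOpen O ∧ p ∈ O ∧ ∃ D : ℝ≥0∞, D ≠ ⊤ ∧ ∀ S ⊆ O, ∀ B : Set E,
      μF (S ∩ Φ ⁻¹' B) ≤ D * volume B := by
  let e : F ≃ₗ[ℝ] E := LinearMap.linearEquivOfInjective (Φ' : F →ₗ[ℝ] E) hinj hd
  let e' : F ≃L[ℝ] E := e.toContinuousLinearEquiv
  have he : (e' : F →L[ℝ] E) = Φ' := by
    ext v
    rfl
  rw [← he] at h
  obtain ⟨O, hpO, hO, happ⟩ := h.approximates_deriv_on_open_nhds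
  have hanti := happ.antilipschitz (e'.subsingleton_or_nnnorm_symm_pos.imp id fun hf' =>
    NNReal.half_lt_self <| ne_of_gt <| inv_pos.2 hf')
  obtain ⟨D, hD, hB⟩ := vol_preimage_le hd μF (volume : Measure E) hanti
  refine ⟨O, hO, hpO, D, hD, ?_⟩
  intro S hS B
  exact (measure_mono (inter_subset_inter_left _ hS)).trans (hB B)

/-- the product of two extension operators is an extension operator -/
private theorem TT_mul {Y₁ Y₂ : Type*} [MeasurableSpace Y₁] [MeasurableSpace Y₂] (μ : Measure Y₁) (ν : Measure Y₂)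
    [SFinite μ] [SFinite ν] (Γ : Y₁ → E) (γ : Y₂ → E) (f : Y₁ → ℂ) (a : Y₂ → ℂ) (x : E) :
    TT (μ.prod ν) (fun p => Γ p.1 + γ p.2) (fun p => f p.1 * a p.2) x = TT μ Γ f x * TT ν γ a x := by
  unfold TT
  rw [← integral_prod_mul]
  congr 1
  funext p
  rw [ex_add]
  ring

private theorem pair_est {Y₁ Y₂ : Type*} [MeasurableSpace Y₁] [MeasurableSpace Y₂] (μ : Measure Y₁) (ν : Measure Y₂)
    [SFinite μ] [SFinite ν] {Γ : Y₁ → E} {γ : Y₂ → E} (hΓ : Measurable Γ) (hγ : Measurable γ) (D : ℝ≥0∞)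
    (hν : ∀ B, MeasurableSet B → (μ.prod ν) ((fun p => Γ p.1 + γ p.2) ⁻¹' B) ≤ D * volume B)
    {f : Y₁ → ℂ} {a : Y₂ → ℂ} (hf : Integrable f μ) (ha : Integrable a ν) :
    ∫⁻ x : E, ‖TT μ Γ f x‖ₑ ^ 2 * ‖TT ν γ a x‖ₑ ^ 2 ≤
      D * ((∫⁻ y, ‖f y‖ₑ ^ 2 ∂μ) * ∫⁻ y, ‖a y‖ₑ ^ 2 ∂ν) := by
  have h1 := dual_l2 (μ.prod ν) (Φ := fun p : Y₁ × Y₂ => Γ p.1 + γ p.2) (by fun_prop) D hν
    (h := fun p => f p.1 * a p.2) (hf.mul_prod ha)
  have e1 : ∫⁻ p, ‖f p.1 * a p.2‖ₑ ^ 2 ∂(μ.prod ν) = (∫⁻ y, ‖f y‖ₑ ^ 2 ∂μ) * ∫⁻ y, ‖a y‖ₑ ^ 2 ∂ν := by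
    rw [← lintegral_prod_mul (hf.1.enorm.pow_const 2) (ha.1.enorm.pow_const 2)]
    apply lintegral_congr
    intro p
    rw [enorm_mul, mul_pow]
  rw [e1] at h1
  refine le_trans (le_of_eq ?_) h1
  apply lintegral_congr
  intro x
  rw [TT_mul, enorm_mul, mul_pow]

end Pair


section Pieces

variable {E : Type*} [NormedAddCommGroup E] [InnerProductSpace ℝ E] [FiniteDimensional ℝ E]
  [MeasurableSpace E] [BorelSpace E]
variable {Y₁ Y₂ : Type*} [MeasurableSpace Y₁] [MeasurableSpace Y₂]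

private theorem pow_split {m : ℕ} (hm : 0 < m) (a b : ℝ≥0∞) :
    a ^ (2 / (m : ℝ)) * b ^ (2 / (m : ℝ)) = (a ^ 2 * b ^ 2) ^ (1 / (m : ℝ)) := by
  have hm' : (0 : ℝ) < m := by exact_mod_cast hm
  rw [ENNReal.mul_rpow_of_nonneg _ _ (by positivity), ← ENNReal.rpow_natCast, ← ENNReal.rpow_natCast,
    ← ENNReal.rpow_mul, ← ENNReal.rpow_mul]
  congr 2 <;>
  · push_cast
    ring

private theorem holder_piece {m : ℕ} (hm : 0 < m) (σ : Equiv.Perm (Fin m)) (μ : Fin m → Measure Y₁)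
    (ν : Fin m → Measure Y₂) [∀ i, SFinite (μ i)] [∀ i, SFinite (ν i)] {Γ : Fin m → Y₁ → E} {γ : Fin m → Y₂ → E}
    (hΓ : ∀ i, Measurable (Γ i)) (hγ : ∀ i, Measurable (γ i)) (D : ℝ≥0∞)
    (hD : ∀ i, ∀ B, MeasurableSet B → ((μ i).prod (ν (σ i))) ((fun p => Γ i p.1 + γ (σ i) p.2) ⁻¹' B) ≤ D * volume B)
    {f : Fin m → Y₁ → ℂ} {a : Fin m → Y₂ → ℂ} (hf : ∀ i, Integrable (f i) (μ i)) (ha : ∀ i, Integrable (a i) (ν i)) :
    ∫⁻ x : E, (∏ i, ‖TT (μ i) (Γ i) (f i) x‖ₑ ^ (2 / (m : ℝ))) * ∏ k, ‖TT (ν k) (γ k) (a k) x‖ₑ ^ (2 / (m : ℝ)) ≤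
      D * ((∏ i, (∫⁻ y, ‖f i y‖ₑ ^ 2 ∂μ i) ^ (1 / (m : ℝ))) * ∏ k, (∫⁻ y, ‖a k y‖ₑ ^ 2 ∂ν k) ^ (1 / (m : ℝ))) := by
  have hm' : (0 : ℝ) < m := by exact_mod_cast hm
  have e1 : ∀ x : E, (∏ i, ‖TT (μ i) (Γ i) (f i) x‖ₑ ^ (2 / (m : ℝ))) * ∏ k, ‖TT (ν k) (γ k) (a k) x‖ₑ ^ (2 / (m : ℝ))
      = ∏ i, (‖TT (μ i) (Γ i) (f i) x‖ₑ ^ 2 * ‖TT (ν (σ i)) (γ (σ i)) (a (σ i)) x‖ₑ ^ 2) ^ (1 / (m : ℝ)) := by
    intro x
    rw [← Equiv.prod_comp σ (fun k => ‖TT (ν k) (γ k) (a k) x‖ₑ ^ (2 / (m : ℝ))), ← Finset.prod_mul_distrib]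
    apply Finset.prod_congr rfl
    intro i _
    exact pow_split hm _ _
  simp only [e1]
  have h1 := ENNReal.lintegral_prod_norm_pow_le (μ := (volume : Measure E)) (Finset.univ : Finset (Fin m))
    (f := fun i x => ‖TT (μ i) (Γ i) (f i) x‖ₑ ^ 2 * ‖TT (ν (σ i)) (γ (σ i)) (a (σ i)) x‖ₑ ^ 2)
    (by
      intro i _
      have g1 := (TT_cont (μ i) (hΓ i) (hf i)).enorm.measurable.pow_const 2
      have g2 := (TT_cont (ν (σ i)) (hγ (σ i)) (ha (σ i))).enorm.measurable.pow_const 2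
      exact (g1.mul g2).aemeasurable)
    (p := fun _ => 1 / (m : ℝ)) (by
      rw [Finset.sum_const, Finset.card_univ, Fintype.card_fin, nsmul_eq_mul]
      field_simp) (fun i _ => by positivity)
  refine h1.trans ?_
  calc ∏ i, (∫⁻ x, ‖TT (μ i) (Γ i) (f i) x‖ₑ ^ 2 * ‖TT (ν (σ i)) (γ (σ i)) (a (σ i)) x‖ₑ ^ 2) ^ (1 / (m : ℝ))
      ≤ ∏ i, (D * ((∫⁻ y, ‖f i y‖ₑ ^ 2 ∂μ i) * ∫⁻ y, ‖a (σ i) y‖ₑ ^ 2 ∂ν (σ i))) ^ (1 / (m : ℝ)) := by
        apply Finset.prod_le_prod' 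
        intro i _
        apply ENNReal.rpow_le_rpow _ (by positivity)
        exact pair_est (μ i) (ν (σ i)) (hΓ i) (hγ (σ i)) D (hD i) (hf i) (ha (σ i))
    _ = D * ((∏ i, (∫⁻ y, ‖f i y‖ₑ ^ 2 ∂μ i) ^ (1 / (m : ℝ))) * ∏ k, (∫⁻ y, ‖a k y‖ₑ ^ 2 ∂ν k) ^ (1 / (m : ℝ))) := by
        simp only [ENNReal.mul_rpow_of_nonneg _ _ (show (0:ℝ) ≤ 1 / (m : ℝ) by positivity)]
        rw [Finset.prod_mul_distrib, Finset.prod_mul_distrib]
        rw [Equiv.prod_comp σ (fun k => (∫⁻ y, ‖a k y‖ₑ ^ 2 ∂ν k) ^ (1 / (m : ℝ)))]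
        congr 1
        rw [Finset.prod_const, Finset.card_univ, Fintype.card_fin, ← ENNReal.rpow_natCast, ← ENNReal.rpow_mul]
        rw [show 1 / (m : ℝ) * m = 1 by field_simp, ENNReal.rpow_one]

private theorem sum_rpow_le {ι : Type*} (s : Finset ι) (b : ι → ℝ≥0∞) {q : ℝ} (hq : 0 < q) :
    (∑ j ∈ s, b j) ^ q ≤ (s.card : ℝ≥0∞) ^ q * ∑ j ∈ s, b j ^ q := by
  rcases s.eq_empty_or_nonempty with h | h
  · subst h; simp [hq]
  · obtain ⟨j0, hj0, hmax⟩ := s.exists_max_image b h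
    calc (∑ j ∈ s, b j) ^ q ≤ (∑ _j ∈ s, b j0) ^ q := by
          apply ENNReal.rpow_le_rpow _ hq.le
          exact Finset.sum_le_sum hmax
      _ = (s.card : ℝ≥0∞) ^ q * b j0 ^ q := by
          rw [Finset.sum_const, nsmul_eq_mul, ENNReal.mul_rpow_of_nonneg _ _ hq.le]
      _ ≤ _ := by
          gcongr
          exact Finset.single_le_sum (f := fun j => b j ^ q) (fun _ _ => zero_le) hj0

private theorem exists_part {X : Type*} [MetricSpace X] [MeasurableSpace X] [OpensMeasurableSpace X]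
    {U : Set X} (hU : IsCompact U) {δ : ℝ} (hδ : 0 < δ) :
    ∃ (N : ℕ) (Q : Fin N → Set X), (∀ j, MeasurableSet (Q j)) ∧ Pairwise (Function.onFun Disjoint Q) ∧
      (⋃ j, Q j) = U ∧ ∀ j, ∀ x ∈ Q j, ∀ y ∈ Q j, dist x y < δ := by
  obtain ⟨t, _, htf, hcov⟩ := hU.finite_cover_balls (e := δ / 2) (by linarith)
  have := htf.fintype
  obtain ⟨e⟩ : Nonempty (Fin (Fintype.card t) ≃ t) := ⟨(Fintype.equivFin t).symm⟩
  obtain ⟨g, hg⟩ : ∃ g : Fin (Fintype.card t) → Set X, g = fun j => Metric.ball (e j : X) (δ / 2) ∩ U := ⟨_, rfl⟩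
  have hgm : ∀ j, MeasurableSet (g j) := by
    intro j; rw [hg]; exact Metric.isOpen_ball.measurableSet.inter hU.measurableSet
  refine ⟨Fintype.card t, disjointed g, ?_, disjoint_disjointed g, ?_, ?_⟩
  · intro j
    exact disjointedRec (f := g) (p := MeasurableSet) (fun {t i} ht => ht.diff (hgm i)) (hgm j)
  · rw [iUnion_disjointed]
    ext x
    simp only [mem_iUnion, hg, mem_inter_iff]
    constructor
    · rintro ⟨_, _, h⟩; exact h
    · intro hx
      have := hcov hx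
      simp only [mem_iUnion, exists_prop] at this
      obtain ⟨c, hc, hxc⟩ := this
      refine ⟨e.symm ⟨c, hc⟩, ?_, hx⟩
      rw [Equiv.apply_symm_apply]
      exact hxc
  · intro j x hx y hy
    have hx1 : x ∈ g j := disjointed_subset g j hx
    have hy1 : y ∈ g j := disjointed_subset g j hy
    rw [hg] at hx1 hy1
    have h1 := Metric.mem_ball.1 hx1.1
    have h2 := Metric.mem_ball'.1 hy1.1
    calc dist x y ≤ dist x (e j : X) + dist (e j : X) y := dist_triangle _ _ _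
      _ < δ / 2 + δ / 2 := add_lt_add h1 h2
      _ = δ := by ring

end Pieces


section Main

variable {E : Type*} [NormedAddCommGroup E] [InnerProductSpace ℝ E] [FiniteDimensional ℝ E]
  [MeasurableSpace E] [BorelSpace E]
variable {X : Type*} [NormedAddCommGroup X] [InnerProductSpace ℝ X] [FiniteDimensional ℝ X]
  [MeasurableSpace X] [BorelSpace X]

/-- the multilinear estimate for `m` surfaces and `m` curves -/
private def Est {m : ℕ} (Γ : Fin m → X → E) (γ : Fin m → ℝ → E) (V : Fin m → Set X) (J : Fin m → Set ℝ) : Prop :=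
  ∃ D : ℝ≥0∞, D ≠ ⊤ ∧ ∀ (f : Fin m → X → ℂ) (a : Fin m → ℝ → ℂ), (∀ i, IntegrableOn (f i) (V i)) →
    (∀ k, IntegrableOn (a k) (J k)) →
    ∫⁻ x : E, (∏ i, ‖TT (volume.restrict (V i)) (Γ i) (f i) x‖ₑ ^ (2 / (m : ℝ))) *
        ∏ k, ‖TT (volume.restrict (J k)) (γ k) (a k) x‖ₑ ^ (2 / (m : ℝ)) ≤
      D * ((∏ i, (∫⁻ y in V i, ‖f i y‖ₑ ^ 2) ^ (1 / (m : ℝ))) * ∏ k, (∫⁻ y in J k, ‖a k y‖ₑ ^ 2) ^ (1 / (m : ℝ)))

private theorem est_empty₁ {m : ℕ} (hm : 0 < m) {Γ : Fin m → X → E} {γ : Fin m → ℝ → E} {V : Fin m → Set X}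
    {J : Fin m → Set ℝ} {i : Fin m} (h : V i = ∅) : Est Γ γ V J := by
  have hm' : (0 : ℝ) < m := by exact_mod_cast hm
  refine ⟨0, ENNReal.zero_ne_top, ?_⟩
  intro f a _ _
  rw [zero_mul]
  refine le_of_eq ?_
  rw [lintegral_eq_zero_iff' (by
    have : (fun x : E => (∏ i, ‖TT (volume.restrict (V i)) (Γ i) (f i) x‖ₑ ^ (2 / (m : ℝ))) *
        ∏ k, ‖TT (volume.restrict (J k)) (γ k) (a k) x‖ₑ ^ (2 / (m : ℝ))) = fun _ => 0 := by
      funext x
      rw [Finset.prod_eq_zero (Finset.mem_univ i), zero_mul]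
      rw [h]
      unfold TT
      simp only [Measure.restrict_empty, integral_zero_measure, enorm_zero]
      exact ENNReal.zero_rpow_of_pos (by positivity)
    rw [this]
    exact aemeasurable_const)]
  refine Eventually.of_forall fun x => ?_
  simp only [Pi.zero_apply]
  rw [Finset.prod_eq_zero (Finset.mem_univ i), zero_mul]
  rw [h]
  unfold TT
  simp only [Measure.restrict_empty, integral_zero_measure, enorm_zero]
  exact ENNReal.zero_rpow_of_pos (by positivity)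

private theorem est_empty₂ {m : ℕ} (hm : 0 < m) {Γ : Fin m → X → E} {γ : Fin m → ℝ → E} {V : Fin m → Set X}
    {J : Fin m → Set ℝ} {i : Fin m} (h : J i = ∅) : Est Γ γ V J := by
  have hm' : (0 : ℝ) < m := by exact_mod_cast hm
  refine ⟨0, ENNReal.zero_ne_top, ?_⟩
  intro f a _ _
  rw [zero_mul]
  refine le_of_eq ?_
  have key : (fun x : E => (∏ i, ‖TT (volume.restrict (V i)) (Γ i) (f i) x‖ₑ ^ (2 / (m : ℝ))) *
        ∏ k, ‖TT (volume.restrict (J k)) (γ k) (a k) x‖ₑ ^ (2 / (m : ℝ))) = fun _ => 0 := by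
      funext x
      rw [Finset.prod_eq_zero (s := Finset.univ) (f := fun k => ‖TT (volume.restrict (J k)) (γ k) (a k) x‖ₑ ^ (2 / (m : ℝ)))
        (Finset.mem_univ i), mul_zero]
      rw [h]
      unfold TT
      simp only [Measure.restrict_empty, integral_zero_measure, enorm_zero]
      exact ENNReal.zero_rpow_of_pos (by positivity)
  rw [key]
  simp

private theorem TT_iUnion_le {Y : Type*} [MeasurableSpace Y] (μ : Measure Y) {Φ : Y → E} (hΦ : Measurable Φ) {N : ℕ}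
    {Q : Fin N → Set Y} (hQ : ∀ j, MeasurableSet (Q j)) (hd : Pairwise (Function.onFun Disjoint Q)) {h : Y → ℂ}
    (hh : IntegrableOn h (⋃ j, Q j) μ) (x : E) :
    ‖TT (μ.restrict (⋃ j, Q j)) Φ h x‖ₑ ≤ ∑ j, ‖TT (μ.restrict (Q j)) Φ h x‖ₑ := by
  unfold TT
  rw [integral_iUnion_fintype hQ hd]
  · exact enorm_sum_le _ _
  · intro j
    have h1 : IntegrableOn h (Q j) μ := hh.mono_set (subset_iUnion Q j)
    have h2 : Measurable (fun y => ex x (Φ y)) := (measurable_ex hΦ).comp (measurable_const.prodMk measurable_id)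
    refine Integrable.mono h1 (h2.aestronglyMeasurable.mul h1.1) ?_
    refine Eventually.of_forall fun y => ?_
    rw [norm_mul, norm_ex, one_mul]

private theorem est_union {m : ℕ} (hm : 0 < m) {Γ : Fin m → X → E} {γ : Fin m → ℝ → E}
    (hΓ : ∀ i, Measurable (Γ i)) (hγ : ∀ i, Measurable (γ i))
    {NV NJ : Fin m → ℕ} {Q : ∀ i, Fin (NV i) → Set X} {P : ∀ k, Fin (NJ k) → Set ℝ}
    (hQ : ∀ i j, MeasurableSet (Q i j)) (hP : ∀ i j, MeasurableSet (P i j))
    (hQd : ∀ i, Pairwise (Function.onFun Disjoint (Q i))) (hPd : ∀ i, Pairwise (Function.onFun Disjoint (P i)))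
    (hE : ∀ (p : ∀ i, Fin (NV i)) (r : ∀ k, Fin (NJ k)), Est Γ γ (fun i => Q i (p i)) (fun k => P k (r k))) :
    Est Γ γ (fun i => ⋃ j, Q i j) (fun k => ⋃ l, P k l) := by
  have hm' : (0 : ℝ) < m := by exact_mod_cast hm
  have hq : (0 : ℝ) < 2 / (m : ℝ) := by positivity
  choose D hD hest using hE
  obtain ⟨c1, hc1⟩ : ∃ c1 : ℝ≥0∞, c1 = ∏ i, (NV i : ℝ≥0∞) ^ (2 / (m : ℝ)) := ⟨_, rfl⟩
  obtain ⟨c2, hc2⟩ : ∃ c2 : ℝ≥0∞, c2 = ∏ i, (NJ i : ℝ≥0∞) ^ (2 / (m : ℝ)) := ⟨_, rfl⟩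
  have hc1t : c1 ≠ ⊤ := by
    rw [hc1]
    apply ENNReal.prod_ne_top
    intro i _
    exact ENNReal.rpow_ne_top_of_nonneg hq.le (ENNReal.natCast_ne_top _)
  have hc2t : c2 ≠ ⊤ := by
    rw [hc2]
    apply ENNReal.prod_ne_top
    intro i _
    exact ENNReal.rpow_ne_top_of_nonneg hq.le (ENNReal.natCast_ne_top _)
  refine ⟨(c1 * c2) * ∑ p : ∀ i, Fin (NV i), ∑ r : ∀ k, Fin (NJ k), D p r, ?_, ?_⟩
  · apply ENNReal.mul_ne_top (ENNReal.mul_ne_top hc1t hc2t)
    apply ENNReal.sum_ne_top.2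
    intro p _
    apply ENNReal.sum_ne_top.2
    intro r _
    exact hD p r
  intro f a hf ha
  obtain ⟨A, hA⟩ : ∃ A : (∀ i, Fin (NV i)) → E → ℝ≥0∞, A = fun p x =>
    ∏ i, ‖TT (volume.restrict (Q i (p i))) (Γ i) (f i) x‖ₑ ^ (2 / (m : ℝ)) := ⟨_, rfl⟩
  obtain ⟨B, hB⟩ : ∃ B : (∀ i, Fin (NJ i)) → E → ℝ≥0∞, B = fun r x =>
    ∏ i, ‖TT (volume.restrict (P i (r i))) (γ i) (a i) x‖ₑ ^ (2 / (m : ℝ)) := ⟨_, rfl⟩
  obtain ⟨R, hR⟩ : ∃ R : ℝ≥0∞, R = (∏ i, (∫⁻ y in ⋃ j, Q i j, ‖f i y‖ₑ ^ 2) ^ (1 / (m : ℝ))) *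
    ∏ k, (∫⁻ y in ⋃ j, P k j, ‖a k y‖ₑ ^ 2) ^ (1 / (m : ℝ)) := ⟨_, rfl⟩
  have hfQ : ∀ i j, IntegrableOn (f i) (Q i j) := fun i j => (hf i).mono_set (subset_iUnion (Q i) j)
  have haP : ∀ i j, IntegrableOn (a i) (P i j) := fun i j => (ha i).mono_set (subset_iUnion (P i) j)
  have hAm : ∀ p, Measurable (A p) := by
    intro p
    rw [hA]
    apply Finset.measurable_prod
    intro i _
    exact ((TT_cont _ (hΓ i) (hfQ i (p i))).enorm.measurable.pow_const _)
  have hBm : ∀ r, Measurable (B r) := by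
    intro r
    rw [hB]
    apply Finset.measurable_prod
    intro i _
    exact ((TT_cont _ (hγ i) (haP i (r i))).enorm.measurable.pow_const _)
  have key1 : ∀ x, ∏ i, ‖TT (volume.restrict (⋃ j, Q i j)) (Γ i) (f i) x‖ₑ ^ (2 / (m : ℝ)) ≤ c1 * ∑ p, A p x := by
    intro x
    calc ∏ i, ‖TT (volume.restrict (⋃ j, Q i j)) (Γ i) (f i) x‖ₑ ^ (2 / (m : ℝ))
        ≤ ∏ i, ((NV i : ℝ≥0∞) ^ (2 / (m : ℝ)) *
            ∑ j, ‖TT (volume.restrict (Q i j)) (Γ i) (f i) x‖ₑ ^ (2 / (m : ℝ))) := by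
          apply Finset.prod_le_prod'
          intro i _
          have h1 := TT_iUnion_le volume (hΓ i) (hQ i) (hQd i) (hf i) x
          refine (ENNReal.rpow_le_rpow h1 hq.le).trans ?_
          have h2 := sum_rpow_le (Finset.univ : Finset (Fin (NV i)))
            (fun j => ‖TT (volume.restrict (Q i j)) (Γ i) (f i) x‖ₑ) hq
          rw [Finset.card_univ, Fintype.card_fin] at h2
          exact h2
      _ = c1 * ∑ p, A p x := by
          rw [Finset.prod_mul_distrib, hc1, Finset.prod_univ_sum, Fintype.piFinset_univ, hA]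
  have key2 : ∀ x, ∏ i, ‖TT (volume.restrict (⋃ j, P i j)) (γ i) (a i) x‖ₑ ^ (2 / (m : ℝ)) ≤ c2 * ∑ r, B r x := by
    intro x
    calc ∏ i, ‖TT (volume.restrict (⋃ j, P i j)) (γ i) (a i) x‖ₑ ^ (2 / (m : ℝ))
        ≤ ∏ i, ((NJ i : ℝ≥0∞) ^ (2 / (m : ℝ)) *
            ∑ j, ‖TT (volume.restrict (P i j)) (γ i) (a i) x‖ₑ ^ (2 / (m : ℝ))) := by
          apply Finset.prod_le_prod'
          intro i _
          have h1 := TT_iUnion_le volume (hγ i) (hP i) (hPd i) (ha i) x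
          refine (ENNReal.rpow_le_rpow h1 hq.le).trans ?_
          have h2 := sum_rpow_le (Finset.univ : Finset (Fin (NJ i)))
            (fun j => ‖TT (volume.restrict (P i j)) (γ i) (a i) x‖ₑ) hq
          rw [Finset.card_univ, Fintype.card_fin] at h2
          exact h2
      _ = c2 * ∑ r, B r x := by
          rw [Finset.prod_mul_distrib, hc2, Finset.prod_univ_sum, Fintype.piFinset_univ, hB]
  have key3 : ∀ p r, ∫⁻ x, A p x * B r x ≤ D p r * R := by
    intro p r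
    have h1 := hest p r f a (fun i => hfQ i (p i)) (fun k => haP k (r k))
    rw [hA, hB]
    refine h1.trans ?_
    rw [hR]
    refine mul_le_mul' le_rfl (mul_le_mul' ?_ ?_)
    · apply Finset.prod_le_prod'
      intro i _
      exact ENNReal.rpow_le_rpow (lintegral_mono_set (subset_iUnion (Q i) (p i))) (by positivity)
    · apply Finset.prod_le_prod'
      intro i _
      exact ENNReal.rpow_le_rpow (lintegral_mono_set (subset_iUnion (P i) (r i))) (by positivity)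
  calc ∫⁻ x : E, (∏ i, ‖TT (volume.restrict (⋃ j, Q i j)) (Γ i) (f i) x‖ₑ ^ (2 / (m : ℝ))) *
        ∏ k, ‖TT (volume.restrict (⋃ j, P k j)) (γ k) (a k) x‖ₑ ^ (2 / (m : ℝ))
      ≤ ∫⁻ x : E, (c1 * c2) * ∑ p, ∑ r, A p x * B r x := by
        apply lintegral_mono
        intro x
        calc _ ≤ (c1 * ∑ p, A p x) * (c2 * ∑ r, B r x) := mul_le_mul' (key1 x) (key2 x)
          _ = (c1 * c2) * ((∑ p, A p x) * ∑ r, B r x) := by ring
          _ = _ := by rw [Finset.sum_mul_sum]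
    _ = (c1 * c2) * ∑ p, ∑ r, ∫⁻ x, A p x * B r x := by
        rw [lintegral_const_mul' _ _ (ENNReal.mul_ne_top hc1t hc2t)]
        congr 1
        rw [lintegral_finsetSum Finset.univ (f := fun p x => ∑ r, A p x * B r x)
          (fun p _ => Finset.measurable_sum _ (fun r _ => (hAm p).mul (hBm r)))]
        apply Finset.sum_congr rfl
        intro p _
        rw [lintegral_finsetSum Finset.univ (f := fun r x => A p x * B r x) (fun r _ => (hAm p).mul (hBm r))]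
    _ ≤ (c1 * c2) * ∑ p, ∑ r, D p r * R := by
        gcongr with p _ r _
        exact key3 p r
    _ = _ := by
        rw [← hR]
        simp only [← Finset.sum_mul]
        ring


private theorem est_of_good {m : ℕ} (hm : 0 < m) {Γ : Fin m → X → E} {γ : Fin m → ℝ → E}
    (hΓ : ∀ i, Measurable (Γ i)) (hγ : ∀ i, Measurable (γ i)) {V : Fin m → Set X} {J : Fin m → Set ℝ}
    (σ : Equiv.Perm (Fin m)) (D : Fin m → ℝ≥0∞)
    (hDt : ∀ i, D i ≠ ⊤) (hD : ∀ i, ∀ B : Set E,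
      volume ((V i ×ˢ J (σ i)) ∩ (fun p : X × ℝ => Γ i p.1 + γ (σ i) p.2) ⁻¹' B) ≤ D i * volume B) :
    Est Γ γ V J := by
  refine ⟨∑ i, D i, ENNReal.sum_ne_top.2 (fun i _ => hDt i), ?_⟩
  intro f a hf ha
  apply holder_piece hm σ (fun i => volume.restrict (V i)) (fun k => volume.restrict (J k)) hΓ hγ _ _ hf ha
  intro i B hB
  rw [Measure.prod_restrict, Measure.restrict_apply (by
    have : Measurable (fun p : X × ℝ => Γ i p.1 + γ (σ i) p.2) :=
      ((hΓ i).comp measurable_fst).add ((hγ (σ i)).comp measurable_snd)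
    exact this hB)]
  rw [inter_comm]
  refine (hD i B).trans ?_
  gcongr
  exact Finset.single_le_sum (f := D) (fun _ _ => zero_le) (Finset.mem_univ i)

private theorem est_main {m : ℕ} (hm : 0 < m) {Γ : Fin m → X → E} {γ : Fin m → ℝ → E}
    (hΓ : ∀ i, Measurable (Γ i)) (hγ : ∀ i, Measurable (γ i)) {U : Fin m → Set X} {I : Fin m → Set ℝ}
    (hU : ∀ i, IsCompact (U i)) (hI : ∀ i, IsCompact (I i))
    (hloc : ∀ (y : Fin m → X) (s : Fin m → ℝ), (∀ i, y i ∈ U i) → (∀ k, s k ∈ I k) →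
      ∃ σ : Equiv.Perm (Fin m), ∀ i, ∃ O : Set (X × ℝ), IsOpen O ∧ (y i, s (σ i)) ∈ O ∧
        ∃ D : ℝ≥0∞, D ≠ ⊤ ∧ ∀ S ⊆ O, ∀ B : Set E,
          volume (S ∩ (fun p : X × ℝ => Γ i p.1 + γ (σ i) p.2) ⁻¹' B) ≤ D * volume B) :
    Est Γ γ U I := by
  classical
  obtain ⟨K, hK⟩ : ∃ K : Set ((Fin m → X) × (Fin m → ℝ)), K = (univ.pi U) ×ˢ (univ.pi I) := ⟨_, rfl⟩
  have hKc : IsCompact K := by
    rw [hK]
    exact (isCompact_univ_pi hU).prod (isCompact_univ_pi hI)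
  have hmemK : ∀ z : (Fin m → X) × (Fin m → ℝ), z ∈ K ↔ (∀ i, z.1 i ∈ U i) ∧ ∀ k, z.2 k ∈ I k := by
    intro z
    rw [hK]
    simp [mem_prod]
  have hloc' : ∀ z : K, ∃ σ : Equiv.Perm (Fin m), ∀ i, ∃ O : Set (X × ℝ), IsOpen O ∧ (z.1.1 i, z.1.2 (σ i)) ∈ O ∧
        ∃ D : ℝ≥0∞, D ≠ ⊤ ∧ ∀ S ⊆ O, ∀ B : Set E,
          volume (S ∩ (fun p : X × ℝ => Γ i p.1 + γ (σ i) p.2) ⁻¹' B) ≤ D * volume B := by
    intro z
    have h := (hmemK z.1).1 z.2
    exact hloc z.1.1 z.1.2 h.1 h.2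
  choose σ O hO hmem D hDt hD using hloc'
  obtain ⟨c, hc⟩ : ∃ c : K → Set ((Fin m → X) × (Fin m → ℝ)), c = fun z =>
    {w | ∀ i, (w.1 i, w.2 (σ z i)) ∈ O z i} := ⟨_, rfl⟩
  have hco : ∀ z, IsOpen (c z) := by
    intro z
    rw [hc]
    simp only [Set.ofPred_forall]
    apply isOpen_iInter_of_finite
    intro i
    exact (hO z i).preimage (by fun_prop)
  obtain ⟨δ, hδ, hball⟩ := lebesgue_number_lemma_of_metric hKc hco (by
    intro z hz
    rw [mem_iUnion]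
    refine ⟨⟨z, hz⟩, ?_⟩
    rw [hc]
    exact fun i => hmem ⟨z, hz⟩ i)
  choose NV Q hQ hQd hQU hQδ using fun i => exists_part (hU i) hδ
  choose NJ P hP hPd hPI hPδ using fun i => exists_part (hI i) hδ
  have e1 : U = fun i => ⋃ j, Q i j := by funext i; exact (hQU i).symm
  have e2 : I = fun i => ⋃ j, P i j := by funext i; exact (hPI i).symm
  rw [e1, e2]
  apply est_union hm hΓ hγ hQ hP hQd hPd
  intro p r
  by_cases h1 : ∃ i, Q i (p i) = ∅
  · obtain ⟨i, hi⟩ := h1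
    exact est_empty₁ hm (i := i) hi
  by_cases h2 : ∃ i, P i (r i) = ∅
  · obtain ⟨i, hi⟩ := h2
    exact est_empty₂ hm (i := i) hi
  push Not at h1 h2
  choose y hy using h1
  choose s hs using h2
  have hyU : ∀ i, y i ∈ U i := fun i => by rw [← hQU i]; exact mem_iUnion.2 ⟨_, hy i⟩
  have hsI : ∀ i, s i ∈ I i := fun i => by rw [← hPI i]; exact mem_iUnion.2 ⟨_, hs i⟩
  have hzK : (y, s) ∈ K := (hmemK _).2 ⟨hyU, hsI⟩
  obtain ⟨z, hz⟩ := hball (y, s) hzK
  apply est_of_good hm hΓ hγ (σ z) (D z) (hDt z)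
  intro i B
  apply hD z i
  rintro ⟨y', s'⟩ ⟨hy', hs'⟩
  have hw : ((Function.update y i y', Function.update s (σ z i) s') : (Fin m → X) × (Fin m → ℝ)) ∈
      Metric.ball (y, s) δ := by
    rw [Metric.mem_ball, Prod.dist_eq]
    apply max_lt
    · rw [dist_pi_lt_iff hδ]
      intro j
      by_cases hj : j = i
      · subst hj
        simp only [Function.update_self]
        exact hQδ _ _ _ hy' _ (hy _)
      · simp only [Function.update_of_ne hj, dist_self]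
        exact hδ
    · rw [dist_pi_lt_iff hδ]
      intro j
      by_cases hj : j = σ z i
      · subst hj
        simp only [Function.update_self]
        exact hPδ _ _ _ hs' _ (hs _)
      · simp only [Function.update_of_ne hj, dist_self]
        exact hδ
  have hw2 := hz hw
  rw [hc] at hw2
  have hw3 := hw2 i
  simpa only [Function.update_self] using hw3

end Main

section Lin

variable {m : ℕ}


private theorem exists_normal (L : (EuclideanSpace ℝ (Fin m)) →L[ℝ] (EuclideanSpace ℝ (Fin (m + 1)))) : ∃ u : (EuclideanSpace ℝ (Fin (m + 1))), ‖u‖ = 1 ∧ ∀ v, inner ℝ u (L v) = 0 := by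
  have h1 : (LinearMap.range (L : (EuclideanSpace ℝ (Fin m)) →ₗ[ℝ] (EuclideanSpace ℝ (Fin (m + 1))))) ≠ ⊤ := by
    intro h
    have h2 := LinearMap.finrank_range_le (L : (EuclideanSpace ℝ (Fin m)) →ₗ[ℝ] (EuclideanSpace ℝ (Fin (m + 1))))
    rw [h, finrank_top] at h2
    simp at h2
  have h3 : (LinearMap.range (L : (EuclideanSpace ℝ (Fin m)) →ₗ[ℝ] (EuclideanSpace ℝ (Fin (m + 1)))))ᗮ ≠ ⊥ := by
    intro h
    exact h1 ((Submodule.orthogonal_eq_bot_iff).1 h)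
  obtain ⟨w, hw, hw0⟩ := Submodule.exists_mem_ne_zero_of_ne_bot h3
  refine ⟨(‖w‖)⁻¹ • w, ?_, ?_⟩
  · rw [norm_smul, norm_inv, norm_norm]
    exact inv_mul_cancel₀ (norm_ne_zero_iff.2 hw0)
  · intro v
    rw [inner_smul_left]
    have := (Submodule.mem_orthogonal' _ _).1 hw (L v) ⟨v, rfl⟩
    rw [this, mul_zero]

private theorem exists_perm (j₀ : Fin (m + 1)) (u : Fin (m + 1) → (EuclideanSpace ℝ (Fin (m + 1))))
    (hdet : (EuclideanSpace.basisFun (Fin (m + 1)) ℝ).toBasis.det u ≠ 0) (g : Fin m → (EuclideanSpace ℝ (Fin (m + 1))))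
    (hg : ∀ v : Fin m → ℝ, (∑ k, v k • g k) = 0 → v = 0) (hu : ∀ k, inner ℝ (u j₀) (g k) = 0) :
    ∃ σ : Equiv.Perm (Fin m), ∀ i, inner ℝ (u (j₀.succAbove i)) (g (σ i)) ≠ (0 : ℝ) := by
  obtain ⟨M, hM⟩ : ∃ M : Matrix (Fin m) (Fin m) ℝ, M = fun i k => inner ℝ (u (j₀.succAbove i)) (g k) := ⟨_, rfl⟩
  have hMdet : M.det ≠ 0 := by
    intro h
    obtain ⟨v, hv, hMv⟩ := Matrix.exists_mulVec_eq_zero_iff.2 h
    apply hv
    apply hg
    obtain ⟨w, hw⟩ : ∃ w : (EuclideanSpace ℝ (Fin (m + 1))), w = ∑ k, v k • g k := ⟨_, rfl⟩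
    rw [← hw]
    have h1 : ∀ j, inner ℝ (u j) w = (0 : ℝ) := by
      intro j
      rcases Fin.eq_self_or_eq_succAbove j₀ j with hj | ⟨i, hj⟩
      · rw [hj, hw, inner_sum]
        apply Finset.sum_eq_zero
        intro k _
        rw [inner_smul_right, hu, mul_zero]
      · rw [hj, hw, inner_sum]
        have h2 := congrFun hMv i
        simp only [Matrix.mulVec, dotProduct, Pi.zero_apply] at h2
        rw [← h2]
        apply Finset.sum_congr rfl
        intro k _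
        rw [inner_smul_right, hM, mul_comm]
    have h3 := ((EuclideanSpace.basisFun (Fin (m + 1)) ℝ).toBasis.is_basis_iff_det (v := u)).2
      (isUnit_iff_ne_zero.2 hdet)
    have h4 : w ∈ Submodule.span ℝ (Set.range u) := by rw [h3.2]; trivial
    have h5 : inner ℝ w w = (0 : ℝ) := by
      refine Submodule.span_induction (p := fun x _ => inner ℝ x w = (0 : ℝ)) ?_ ?_ ?_ ?_ h4
      · rintro x ⟨j, rfl⟩
        exact h1 j
      · exact inner_zero_left _
      · intro x y _ _ hx hy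
        rw [inner_add_left, hx, hy, add_zero]
      · intro a x _ hx
        rw [inner_smul_left, hx, mul_zero]
    exact inner_self_eq_zero.1 h5
  rw [Matrix.det_apply] at hMdet
  obtain ⟨σ, _, hσ⟩ := Finset.exists_ne_zero_of_sum_ne_zero hMdet
  have h6 : ∏ i, M (σ i) i ≠ 0 := by
    intro h
    apply hσ
    rw [h, smul_zero]
  refine ⟨σ.symm, ?_⟩
  intro i
  have h7 := Finset.prod_ne_zero_iff.1 h6 (σ.symm i) (Finset.mem_univ _)
  rw [Equiv.apply_symm_apply, hM] at h7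
  exact h7


private theorem est_surfaces (hm : 0 < m) {U : Fin (m + 1) → Set (EuclideanSpace ℝ (Fin m))} {Γ : Fin (m + 1) → (EuclideanSpace ℝ (Fin m)) → (EuclideanSpace ℝ (Fin (m + 1)))} {c : ℝ}
    (hc : 0 < c) (hU : ∀ j, IsCompact (U j)) (hΓ : ∀ j, ContDiff ℝ 1 (Γ j))
    (hinj : ∀ j, ∀ t ∈ U j, Function.Injective (fderiv ℝ (Γ j) t))
    (htr : ∀ t : Fin (m + 1) → (EuclideanSpace ℝ (Fin m)), (∀ j, t j ∈ U j) → ∀ u : Fin (m + 1) → (EuclideanSpace ℝ (Fin (m + 1))),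
      (∀ j, ‖u j‖ = 1 ∧ ∀ v, inner ℝ (u j) (fderiv ℝ (Γ j) (t j) v) = 0) →
        c ≤ |(EuclideanSpace.basisFun (Fin (m + 1)) ℝ).toBasis.det u|)
    (j₀ : Fin (m + 1)) {I : Fin m → Set ℝ} {γ : Fin m → ℝ → (EuclideanSpace ℝ (Fin (m + 1)))} (hI : ∀ k, IsCompact (I k))
    (hγ : ∀ k, ContDiff ℝ 1 (γ k)) (hsum : ∀ t, Γ j₀ t = ∑ k, γ k (t k)) (hbox : U j₀ = {t | ∀ k, t k ∈ I k}) :
    Est (fun i => Γ (j₀.succAbove i)) γ (fun i => U (j₀.succAbove i)) I := by
  apply est_main hm (fun i => (hΓ _).continuous.measurable) (fun i => (hγ i).continuous.measurable)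
    (fun i => hU _) hI
  intro y s hy hs
  obtain ⟨t₀, ht₀⟩ : ∃ t₀ : (EuclideanSpace ℝ (Fin m)), t₀ = WithLp.toLp 2 s := ⟨_, rfl⟩
  have ht₀k : ∀ k, t₀ k = s k := fun k => by rw [ht₀]
  obtain ⟨t, ht⟩ : ∃ t : Fin (m + 1) → (EuclideanSpace ℝ (Fin m)), t = j₀.insertNth (α := fun _ => (EuclideanSpace ℝ (Fin m))) t₀ y := ⟨_, rfl⟩
  have htj : t j₀ = t₀ := by rw [ht]; exact Fin.insertNth_apply_same _ _ _
  have hti : ∀ i, t (j₀.succAbove i) = y i := fun i => by rw [ht]; exact Fin.insertNth_apply_succAbove _ _ _ _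
  have htU : ∀ j, t j ∈ U j := by
    intro j
    rcases Fin.eq_self_or_eq_succAbove j₀ j with hj | ⟨i, hj⟩
    · rw [hj, htj, hbox]
      intro k
      rw [ht₀k]
      exact hs k
    · rw [hj, hti]
      exact hy i
  choose u hu using fun j => exists_normal (fderiv ℝ (Γ j) (t j))
  have hdet := htr t htU u hu
  have hdet0 : (EuclideanSpace.basisFun (Fin (m + 1)) ℝ).toBasis.det u ≠ 0 := by
    intro h
    rw [h, abs_zero] at hdet
    linarith
  obtain ⟨g, hg⟩ : ∃ g : Fin m → (EuclideanSpace ℝ (Fin (m + 1))), g = fun k => deriv (γ k) (s k) := ⟨_, rfl⟩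
  have hder : ∀ v : (EuclideanSpace ℝ (Fin m)), fderiv ℝ (Γ j₀) t₀ v = ∑ k, v k • g k := by
    intro v
    have h1 : ∀ k, HasFDerivAt (fun t : (EuclideanSpace ℝ (Fin m)) => γ k (t k))
        ((ContinuousLinearMap.toSpanSingleton ℝ (g k)).comp (EuclideanSpace.proj k : (EuclideanSpace ℝ (Fin m)) →L[ℝ] ℝ)) t₀ := by
      intro k
      have h2 : HasDerivAt (γ k) (g k) ((EuclideanSpace.proj k : (EuclideanSpace ℝ (Fin m)) →L[ℝ] ℝ) t₀) := by
        rw [hg]
        have h3 : (EuclideanSpace.proj k : (EuclideanSpace ℝ (Fin m)) →L[ℝ] ℝ) t₀ = s k := by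
          rw [← ht₀k k]; rfl
        rw [h3]
        exact ((hγ k).differentiable (by norm_num)).differentiableAt.hasDerivAt
      exact h2.hasFDerivAt.comp t₀ (EuclideanSpace.proj k : (EuclideanSpace ℝ (Fin m)) →L[ℝ] ℝ).hasFDerivAt
    have h4 : Γ j₀ = fun t => ∑ k, γ k (t k) := funext hsum
    have h5 : HasFDerivAt (Γ j₀) (∑ k, (ContinuousLinearMap.toSpanSingleton ℝ (g k)).comp
        (EuclideanSpace.proj k : (EuclideanSpace ℝ (Fin m)) →L[ℝ] ℝ)) t₀ := by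
      rw [h4]
      exact HasFDerivAt.fun_sum (fun k _ => h1 k)
    rw [h5.fderiv]
    rw [sum_apply]
    apply Finset.sum_congr rfl
    intro k _
    rfl
  obtain ⟨σ, hσ⟩ := exists_perm j₀ u hdet0 g (by
    intro v hv
    have h1 := hder (WithLp.toLp 2 v)
    have h2 : fderiv ℝ (Γ j₀) t₀ (WithLp.toLp 2 v) = 0 := by rw [h1]; exact hv
    have h3 := hinj j₀ t₀ (by rw [← htj]; exact htU j₀)
    have h4 : (WithLp.toLp 2 v : (EuclideanSpace ℝ (Fin m))) = 0 := h3 (by rw [h2, map_zero])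
    funext k
    have h5 := congrArg (fun w : (EuclideanSpace ℝ (Fin m)) => w k) h4
    exact h5) (by
    intro k
    have h1 := hder (EuclideanSpace.single k (1 : ℝ))
    have h2 := (hu j₀).2 (EuclideanSpace.single k (1 : ℝ))
    rw [htj, h1] at h2
    have h3 : ∑ l, (EuclideanSpace.single k (1 : ℝ) : (EuclideanSpace ℝ (Fin m))) l • g l = g k := by
      rw [Finset.sum_eq_single k]
      · simp
      · intro b _ hb
        simp [hb]
      · intro h; exact absurd (Finset.mem_univ k) h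
    rw [h3] at h2
    exact h2)
  refine ⟨σ, fun i => ?_⟩
  have hfin : Module.finrank ℝ ((EuclideanSpace ℝ (Fin m)) × ℝ) = Module.finrank ℝ (EuclideanSpace ℝ (Fin (m + 1))) := by
    rw [Module.finrank_prod, finrank_euclideanSpace, finrank_euclideanSpace, Module.finrank_self]
    simp
  have hs1 : HasStrictFDerivAt (Γ (j₀.succAbove i)) (fderiv ℝ (Γ (j₀.succAbove i)) (y i)) (y i) :=
    (hΓ _).contDiffAt.hasStrictFDerivAt (by norm_num)
  have hs2 : HasStrictFDerivAt (γ (σ i)) (ContinuousLinearMap.toSpanSingleton ℝ (g (σ i))) (s (σ i)) := by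
    have h1 : HasStrictDerivAt (γ (σ i)) (deriv (γ (σ i)) (s (σ i))) (s (σ i)) :=
      (hγ _).contDiffAt.hasStrictDerivAt (by norm_num)
    rw [hg]
    exact h1.hasStrictFDerivAt
  have hs3 : HasStrictFDerivAt (fun p : (EuclideanSpace ℝ (Fin m)) × ℝ => Γ (j₀.succAbove i) p.1 + γ (σ i) p.2)
      ((fderiv ℝ (Γ (j₀.succAbove i)) (y i)).comp (ContinuousLinearMap.fst ℝ (EuclideanSpace ℝ (Fin m)) ℝ) +
        (ContinuousLinearMap.toSpanSingleton ℝ (g (σ i))).comp (ContinuousLinearMap.snd ℝ (EuclideanSpace ℝ (Fin m)) ℝ)) (y i, s (σ i)) := by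
    apply HasStrictFDerivAt.fun_add
    · exact HasStrictFDerivAt.comp (y i, s (σ i)) (g := Γ (j₀.succAbove i)) (f := Prod.fst) hs1 hasStrictFDerivAt_fst
    · exact HasStrictFDerivAt.comp (y i, s (σ i)) (g := γ (σ i)) (f := Prod.snd) hs2 hasStrictFDerivAt_snd
  have hah : (volume : Measure ((EuclideanSpace ℝ (Fin m)) × ℝ)).IsAddHaarMeasure := by
    rw [Measure.volume_eq_prod]
    infer_instance
  obtain ⟨O, hO, hmem, D, hDt, hD⟩ := local_bound hfin (volume : Measure ((EuclideanSpace ℝ (Fin m)) × ℝ)) hs3 (by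
    rw [injective_iff_map_eq_zero]
    rintro ⟨v, r⟩ hvr
    simp only [add_apply, ContinuousLinearMap.comp_apply, ContinuousLinearMap.coe_fst',
      ContinuousLinearMap.coe_snd', ContinuousLinearMap.toSpanSingleton_apply] at hvr
    have h1 := congrArg (fun w : (EuclideanSpace ℝ (Fin (m + 1))) => inner ℝ (u (j₀.succAbove i)) w) hvr
    simp only [inner_add_right, inner_zero_right, inner_smul_right] at h1
    have h2 := (hu (j₀.succAbove i)).2 v
    rw [hti] at h2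
    rw [h2, zero_add] at h1
    have h3 : r = 0 := (mul_eq_zero.1 h1).resolve_right (hσ i)
    rw [h3, zero_smul, add_zero] at hvr
    have h4 := hinj (j₀.succAbove i) (y i) (hy i)
    have h5 : v = 0 := h4 (by rw [hvr, map_zero])
    rw [h3, h5]
    rfl)
  exact ⟨O, hO, hmem, D, hDt, hD⟩

end Lin


private theorem tsum_rpow_le {q : ℝ} (hq : 0 < q) (hq1 : q ≤ 1) (b : ℕ → ℝ≥0∞) : (∑' l, b l) ^ q ≤ ∑' l, b l ^ q := by
  have h1 : ∀ s : Finset ℕ, (∑ l ∈ s, b l) ^ q ≤ ∑ l ∈ s, b l ^ q := by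
    intro s
    induction s using Finset.induction with
    | empty => simp [hq]
    | insert a s ha ih =>
      rw [Finset.sum_insert ha, Finset.sum_insert ha]
      exact (ENNReal.rpow_add_le_add_rpow _ _ hq.le hq1).trans (by gcongr)
  have h2 : Tendsto (fun s : Finset ℕ => (∑ l ∈ s, b l) ^ q) atTop (𝓝 ((∑' l, b l) ^ q)) :=
    ((ENNReal.continuous_rpow_const.tendsto _).comp ENNReal.summable.hasSum)
  refine le_of_tendsto h2 (Eventually.of_forall fun s => ?_)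
  exact (h1 s).trans (ENNReal.sum_le_tsum s)

private theorem tsum_pow_ne_top {p : ℝ} (hp : 1 ≤ p) {y : ℕ → ℝ≥0∞} (hy : ∑' l, y l ≠ ⊤) : ∑' l, y l ^ p ≠ ⊤ := by
  have h1 : ∀ l, y l ^ p ≤ y l * (∑' l, y l) ^ (p - 1) := by
    intro l
    have h2 : y l ^ p = y l * y l ^ (p - 1) := by
      conv_lhs => rw [show p = 1 + (p - 1) by ring]
      rw [ENNReal.rpow_add_of_nonneg _ _ zero_le_one (by linarith), ENNReal.rpow_one]
    rw [h2]
    gcongr
    exact ENNReal.le_tsum l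
  refine ne_top_of_le_ne_top ?_ (ENNReal.tsum_le_tsum h1)
  rw [ENNReal.tsum_mul_right]
  exact ENNReal.mul_ne_top hy (ENNReal.rpow_ne_top_of_nonneg (by linarith) hy)

section Box

variable {m : ℕ}


private theorem box_integral {𝕜 : Type*} [RCLike 𝕜] (I : Fin m → Set ℝ) (F : Fin m → ℝ → 𝕜) :
    ∫ t in {t : (EuclideanSpace ℝ (Fin m)) | ∀ k, t k ∈ I k}, ∏ k, F k (t k) = ∏ k, ∫ s in I k, F k s := by
  have h1 := (PiLp.volume_preserving_toLp (Fin m)).setIntegral_preimage_emb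
    (MeasurableEquiv.toLp 2 (Fin m → ℝ)).measurableEmbedding (fun t : (EuclideanSpace ℝ (Fin m)) => ∏ k, F k (t k)) {t : (EuclideanSpace ℝ (Fin m)) | ∀ k, t k ∈ I k}
  rw [← h1]
  have h2 : (WithLp.toLp 2 ⁻¹' {t : (EuclideanSpace ℝ (Fin m)) | ∀ k, t k ∈ I k} : Set (Fin m → ℝ)) = univ.pi I := by
    ext s
    simp
  rw [h2, volume_pi, Measure.restrict_pi_pi]
  exact integral_fintype_prod_eq_prod _

private theorem box_integrable {I : Fin m → Set ℝ} {F : Fin m → ℝ → ℂ} (hF : ∀ k, IntegrableOn (F k) (I k)) :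
    IntegrableOn (fun t : (EuclideanSpace ℝ (Fin m)) => ∏ k, F k (t k)) {t : (EuclideanSpace ℝ (Fin m)) | ∀ k, t k ∈ I k} := by
  have h1 := (PiLp.volume_preserving_toLp (Fin m)).integrableOn_comp_preimage
    (MeasurableEquiv.toLp 2 (Fin m → ℝ)).measurableEmbedding (f := fun t : (EuclideanSpace ℝ (Fin m)) => ∏ k, F k (t k))
    (s := {t : (EuclideanSpace ℝ (Fin m)) | ∀ k, t k ∈ I k})
  rw [← h1]
  have h2 : (WithLp.toLp 2 ⁻¹' {t : (EuclideanSpace ℝ (Fin m)) | ∀ k, t k ∈ I k} : Set (Fin m → ℝ)) = univ.pi I := by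
    ext s
    simp
  rw [h2, IntegrableOn, volume_pi, Measure.restrict_pi_pi]
  exact Integrable.fintype_prod hF

end Box

section Final

variable {m : ℕ}


private theorem enorm_prod' (v : Fin m → ℂ) : ‖∏ k, v k‖ₑ = ∏ k, ‖v k‖ₑ := by
  simp only [enorm_eq_nnnorm, nnnorm_prod, ENNReal.ofNNReal_finsetProd]

private theorem ex_sum (x : (EuclideanSpace ℝ (Fin (m + 1)))) (v : Fin m → (EuclideanSpace ℝ (Fin (m + 1)))) : ex x (∑ k, v k) = ∏ k, ex x (v k) := by
  unfold ex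
  rw [← Complex.exp_sum, inner_sum]
  congr 1
  push_cast
  rw [Finset.mul_sum]

/-- the `L¹` norm is bounded by the `L²` norm on a compact set -/
private theorem l1_le {I : Set ℝ} {a : ℝ → ℂ} (ha : MemLp a 2 (volume.restrict I)) :
    ∫⁻ s in I, ‖a s‖ₑ ≤ (∫⁻ s in I, ‖a s‖ₑ ^ 2) ^ (1 / 2 : ℝ) * (volume I) ^ (1 / 2 : ℝ) := by
  have h := ENNReal.lintegral_mul_le_Lp_mul_Lq (volume.restrict I) Real.HolderConjugate.two_two
    (f := fun s => ‖a s‖ₑ) (g := fun _ => 1) ha.1.enorm aemeasurable_const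
  simp only [Pi.mul_apply, mul_one, ENNReal.one_rpow, lintegral_const, Measure.restrict_apply_univ, one_mul] at h
  have e : ∫⁻ s in I, ‖a s‖ₑ ^ (2 : ℝ) = ∫⁻ s in I, ‖a s‖ₑ ^ 2 := by
    apply lintegral_congr
    intro s
    rw [← ENNReal.rpow_natCast]
    norm_num
  rw [e] at h
  exact h

/-- summability of the `L¹` norms -/
private theorem summable_l1 (hm : 2 ≤ m) {I : Fin m → Set ℝ} (hI : ∀ k, IsCompact (I k)) {a : ℕ → Fin m → ℝ → ℂ}
    (ha : ∀ l k, MemLp (a l k) 2 (volume.restrict (I k)))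
    (hfin : ∑' l, ∏ k, (∫⁻ s in I k, ‖a l k s‖ₑ ^ 2) ^ (1 / (m : ℝ)) ≠ ⊤) :
    Summable (fun l => ∏ k, ∫ s in I k, ‖a l k s‖) := by
  have hm' : (2 : ℝ) ≤ m := by exact_mod_cast hm
  have hint : ∀ l k, IntegrableOn (a l k) (I k) := by
    intro l k
    have : IsFiniteMeasure (volume.restrict (I k)) := ⟨by simpa using (hI k).measure_lt_top⟩
    exact (ha l k).integrable (by norm_num)
  obtain ⟨B, hB⟩ : ∃ B : ℕ → ℝ≥0∞, B = fun l => ∏ k, ∫⁻ s in I k, ‖a l k s‖ₑ := ⟨_, rfl⟩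
  have hBtop : ∀ l, B l ≠ ⊤ := by
    intro l
    rw [hB]
    exact ENNReal.prod_ne_top (fun k _ => (hint l k).2.ne)
  have hBr : ∀ l, (B l).toReal = ∏ k, ∫ s in I k, ‖a l k s‖ := by
    intro l
    rw [hB, ENNReal.toReal_prod]
    apply Finset.prod_congr rfl
    intro k _
    rw [integral_norm_eq_lintegral_enorm (hint l k).1]
  have hBle : ∀ l, B l ≤ (∏ k, (∫⁻ s in I k, ‖a l k s‖ₑ ^ 2) ^ (1 / (m : ℝ))) ^ ((m : ℝ) / 2) *
      ∏ k, (volume (I k)) ^ (1 / 2 : ℝ) := by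
    intro l
    rw [hB]
    simp only
    calc ∏ k, ∫⁻ s in I k, ‖a l k s‖ₑ
        ≤ ∏ k, ((∫⁻ s in I k, ‖a l k s‖ₑ ^ 2) ^ (1 / 2 : ℝ) * (volume (I k)) ^ (1 / 2 : ℝ)) := by
          apply Finset.prod_le_prod'
          intro k _
          exact l1_le (ha l k)
      _ = _ := by
          rw [Finset.prod_mul_distrib]
          congr 1
          rw [← ENNReal.prod_rpow_of_nonneg (by positivity)]
          apply Finset.prod_congr rfl
          intro k _
          rw [← ENNReal.rpow_mul]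
          congr 1
          field_simp
  have hV : ∏ k, (volume (I k)) ^ (1 / 2 : ℝ) ≠ ⊤ :=
    ENNReal.prod_ne_top (fun k _ => ENNReal.rpow_ne_top_of_nonneg (by norm_num) (hI k).measure_lt_top.ne)
  have hsum : ∑' l, B l ≠ ⊤ := by
    refine ne_top_of_le_ne_top ?_ (ENNReal.tsum_le_tsum hBle)
    rw [ENNReal.tsum_mul_right]
    exact ENNReal.mul_ne_top (tsum_pow_ne_top (by linarith) hfin) hV
  have h2 := ENNReal.summable_toReal hsum
  simpa only [hBr] using h2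

/-- the extension operator of a sum of products -/
private theorem TT_box_le {I : Fin m → Set ℝ} (hI : ∀ k, IsCompact (I k)) {a : ℕ → Fin m → ℝ → ℂ}
    (ha : ∀ l k, MemLp (a l k) 2 (volume.restrict (I k)))
    (hs : Summable (fun l => ∏ k, ∫ s in I k, ‖a l k s‖)) {Γ₀ : (EuclideanSpace ℝ (Fin m)) → (EuclideanSpace ℝ (Fin (m + 1)))} {γ : Fin m → ℝ → (EuclideanSpace ℝ (Fin (m + 1)))}
    (hγ : ∀ k, Measurable (γ k))
    (hsum : ∀ t, Γ₀ t = ∑ k, γ k (t k)) {f : (EuclideanSpace ℝ (Fin m)) → ℂ}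
    (hf : ∀ᵐ t ∂(volume.restrict {t : (EuclideanSpace ℝ (Fin m)) | ∀ k, t k ∈ I k}), f t = ∑' l, ∏ k, a l k (t k)) (x : (EuclideanSpace ℝ (Fin (m + 1)))) :
    ‖TT (volume.restrict {t : (EuclideanSpace ℝ (Fin m)) | ∀ k, t k ∈ I k}) Γ₀ f x‖ₑ ≤
      ∑' l, ∏ k, ‖TT (volume.restrict (I k)) (γ k) (a l k) x‖ₑ := by
  have hint : ∀ l k, IntegrableOn (a l k) (I k) := by
    intro l k
    have : IsFiniteMeasure (volume.restrict (I k)) := ⟨by simpa using (hI k).measure_lt_top⟩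
    exact (ha l k).integrable (by norm_num)
  obtain ⟨F, hF⟩ : ∃ F : ℕ → Fin m → ℝ → ℂ, F = fun l k s => ex x (γ k s) * a l k s := ⟨_, rfl⟩
  have hFi : ∀ l k, IntegrableOn (F l k) (I k) := by
    intro l k
    have h2 : Measurable (fun y => ex x (γ k y)) := (measurable_ex (hγ k)).comp (measurable_const.prodMk measurable_id)
    rw [hF]
    refine Integrable.mono (hint l k) (h2.aestronglyMeasurable.mul (hint l k).1) ?_
    refine Eventually.of_forall fun y => ?_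
    simp only [norm_mul, norm_ex, one_mul]
    exact le_rfl
  have hnorm : ∀ l k, ∫ s in I k, ‖F l k s‖ = ∫ s in I k, ‖a l k s‖ := by
    intro l k
    rw [hF]
    simp only [norm_mul, norm_ex, one_mul]
  have h1 : TT (volume.restrict {t : (EuclideanSpace ℝ (Fin m)) | ∀ k, t k ∈ I k}) Γ₀ f x =
      ∫ t in {t : (EuclideanSpace ℝ (Fin m)) | ∀ k, t k ∈ I k}, ∑' l, ∏ k, F l k (t k) := by
    unfold TT
    apply integral_congr_ae
    filter_upwards [hf] with t ht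
    rw [ht, hsum, ex_sum, ← tsum_mul_left]
    apply tsum_congr
    intro l
    rw [hF, Finset.prod_mul_distrib]
  have h2 : HasSum (fun l => ∫ t in {t : (EuclideanSpace ℝ (Fin m)) | ∀ k, t k ∈ I k}, ∏ k, F l k (t k))
      (∫ t in {t : (EuclideanSpace ℝ (Fin m)) | ∀ k, t k ∈ I k}, ∑' l, ∏ k, F l k (t k)) := by
    apply hasSum_integral_of_summable_integral_norm (fun l => box_integrable (hFi l))
    have e : ∀ l, ∫ t in {t : (EuclideanSpace ℝ (Fin m)) | ∀ k, t k ∈ I k}, ‖∏ k, F l k (t k)‖ = ∏ k, ∫ s in I k, ‖a l k s‖ := by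
      intro l
      simp only [norm_prod]
      rw [box_integral I (fun k s => ‖F l k s‖)]
      apply Finset.prod_congr rfl
      intro k _
      exact hnorm l k
    simp only [e]
    exact hs
  rw [h1, ← h2.tsum_eq]
  refine enorm_tsum_le_tsum_enorm.trans (le_of_eq ?_)
  apply tsum_congr
  intro l
  rw [box_integral I (F l), hF]
  unfold TT
  rw [enorm_prod']

/-- the main estimate -/
private theorem main_est (hm : 2 ≤ m) {U : Fin (m + 1) → Set (EuclideanSpace ℝ (Fin m))} {Γ : Fin (m + 1) → (EuclideanSpace ℝ (Fin m)) → (EuclideanSpace ℝ (Fin (m + 1)))} {c : ℝ}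
    (hc : 0 < c) (hU : ∀ j, IsCompact (U j)) (hΓ : ∀ j, ContDiff ℝ 1 (Γ j))
    (hinj : ∀ j, ∀ t ∈ U j, Function.Injective (fderiv ℝ (Γ j) t))
    (htr : ∀ t : Fin (m + 1) → (EuclideanSpace ℝ (Fin m)), (∀ j, t j ∈ U j) → ∀ u : Fin (m + 1) → (EuclideanSpace ℝ (Fin (m + 1))),
      (∀ j, ‖u j‖ = 1 ∧ ∀ v, inner ℝ (u j) (fderiv ℝ (Γ j) (t j) v) = 0) →
        c ≤ |(EuclideanSpace.basisFun (Fin (m + 1)) ℝ).toBasis.det u|)
    (j₀ : Fin (m + 1)) {I : Fin m → Set ℝ} {γ : Fin m → ℝ → (EuclideanSpace ℝ (Fin (m + 1)))} (hI : ∀ k, IsCompact (I k))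
    (hγ : ∀ k, ContDiff ℝ 1 (γ k)) (hsum : ∀ t, Γ j₀ t = ∑ k, γ k (t k)) (hbox : U j₀ = {t | ∀ k, t k ∈ I k}) :
    ∃ C : ℝ≥0, ∀ f : Fin (m + 1) → (EuclideanSpace ℝ (Fin m)) → ℂ, (∀ j, MemLp (f j) 2 (volume.restrict (U j))) →
      ∀ a : ℕ → Fin m → ℝ → ℂ, (∀ l k, MemLp (a l k) 2 (volume.restrict (I k))) →
      (∀ᵐ t ∂(volume.restrict (U j₀)), f j₀ t = ∑' l, ∏ k, a l k (t k)) →
      ∫⁻ x : (EuclideanSpace ℝ (Fin (m + 1))), ∏ j, ‖TT (volume.restrict (U j)) (Γ j) (f j) x‖ₑ ^ (2 / (m : ℝ)) ≤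
        C * ((∏ i, (∫⁻ t in U (j₀.succAbove i), ‖f (j₀.succAbove i) t‖ₑ ^ 2) ^ (1 / (m : ℝ))) *
          ∑' l, ∏ k, (∫⁻ s in I k, ‖a l k s‖ₑ ^ 2) ^ (1 / (m : ℝ))) := by
  have hm0 : 0 < m := by omega
  have hm' : (2 : ℝ) ≤ m := by exact_mod_cast hm
  have hq : (0 : ℝ) < 2 / (m : ℝ) := by positivity
  have hq1 : (2 : ℝ) / (m : ℝ) ≤ 1 := by
    rw [div_le_one (by linarith)]; exact hm'
  obtain ⟨D, hD, hest⟩ := est_surfaces hm0 hc hU hΓ hinj htr j₀ hI hγ hsum hbox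
  refine ⟨D.toNNReal + 1, ?_⟩
  intro f hf a ha hfa
  have hfint : ∀ j, IntegrableOn (f j) (U j) := by
    intro j
    have : IsFiniteMeasure (volume.restrict (U j)) := ⟨by simpa using (hU j).measure_lt_top⟩
    exact (hf j).integrable (by norm_num)
  have haint : ∀ l k, IntegrableOn (a l k) (I k) := by
    intro l k
    have : IsFiniteMeasure (volume.restrict (I k)) := ⟨by simpa using (hI k).measure_lt_top⟩
    exact (ha l k).integrable (by norm_num)
  obtain ⟨P, hP⟩ : ∃ P : ℝ≥0∞, P = ∏ i, (∫⁻ t in U (j₀.succAbove i), ‖f (j₀.succAbove i) t‖ₑ ^ 2) ^ (1 / (m : ℝ)) :=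
    ⟨_, rfl⟩
  obtain ⟨y, hy⟩ : ∃ y : ℕ → ℝ≥0∞, y = fun l => ∏ k, (∫⁻ s in I k, ‖a l k s‖ₑ ^ 2) ^ (1 / (m : ℝ)) := ⟨_, rfl⟩
  have hCD : D ≤ ((D.toNNReal + 1 : ℝ≥0) : ℝ≥0∞) := by
    rw [ENNReal.coe_add, ENNReal.coe_toNNReal hD]
    exact le_self_add
  have hC0 : ((D.toNNReal + 1 : ℝ≥0) : ℝ≥0∞) ≠ 0 := by
    rw [ENNReal.coe_add]
    simp
  rw [← hP]
  show _ ≤ ((D.toNNReal + 1 : ℝ≥0) : ℝ≥0∞) * (P * ∑' l, (fun l => ∏ k, (∫⁻ s in I k, ‖a l k s‖ₑ ^ 2) ^ (1 / (m : ℝ))) l)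
  rw [← hy]
  by_cases hP0 : P = 0
  · -- one of the functions vanishes
    rw [hP] at hP0
    obtain ⟨i, _, hi⟩ := Finset.prod_eq_zero_iff.1 hP0
    have h1 : ∫⁻ t in U (j₀.succAbove i), ‖f (j₀.succAbove i) t‖ₑ ^ 2 = 0 := by
      by_contra hne
      have h2 := (ENNReal.rpow_eq_zero_iff.1 hi)
      rcases h2 with h2 | h2
      · exact hne h2.1
      · have : (0 : ℝ) < 1 / (m : ℝ) := by positivity
        linarith [h2.2]
    have h2 : ∀ᵐ t ∂(volume.restrict (U (j₀.succAbove i))), f (j₀.succAbove i) t = 0 := by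
      have h3 := (lintegral_eq_zero_iff' ((hf (j₀.succAbove i)).1.enorm.pow_const 2)).1 h1
      filter_upwards [h3] with t ht
      simpa using ht
    have h4 : ∀ x, TT (volume.restrict (U (j₀.succAbove i))) (Γ (j₀.succAbove i)) (f (j₀.succAbove i)) x = 0 := by
      intro x
      unfold TT
      rw [integral_congr_ae (g := fun _ => (0 : ℂ))]
      · simp
      · filter_upwards [h2] with t ht
        rw [ht, mul_zero]
    have h5 : (fun x : (EuclideanSpace ℝ (Fin (m + 1))) => ∏ j, ‖TT (volume.restrict (U j)) (Γ j) (f j) x‖ₑ ^ (2 / (m : ℝ))) = fun _ => 0 := by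
      funext x
      apply Finset.prod_eq_zero (Finset.mem_univ (j₀.succAbove i))
      rw [h4, enorm_zero, ENNReal.zero_rpow_of_pos hq]
    rw [h5, lintegral_zero]
    exact zero_le
  by_cases hy0 : ∑' l, y l = ⊤
  · rw [hy0, ENNReal.mul_top hP0, ENNReal.mul_top hC0]
    exact le_top
  have hs := summable_l1 hm hI ha (by rw [hy] at hy0; exact hy0)
  have hγm : ∀ k, Measurable (γ k) := fun k => (hγ k).continuous.measurable
  rw [hbox] at hfa
  have key : ∀ x : (EuclideanSpace ℝ (Fin (m + 1))), ∏ j, ‖TT (volume.restrict (U j)) (Γ j) (f j) x‖ₑ ^ (2 / (m : ℝ)) ≤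
      ∑' l, (∏ i, ‖TT (volume.restrict (U (j₀.succAbove i))) (Γ (j₀.succAbove i)) (f (j₀.succAbove i)) x‖ₑ ^ (2 / (m : ℝ))) *
        ∏ k, ‖TT (volume.restrict (I k)) (γ k) (a l k) x‖ₑ ^ (2 / (m : ℝ)) := by
    intro x
    rw [Fin.prod_univ_succAbove _ j₀, mul_comm, ENNReal.tsum_mul_left]
    refine mul_le_mul' le_rfl ?_
    have h1 := TT_box_le hI ha hs hγm hsum hfa x
    rw [← hbox] at h1
    refine (ENNReal.rpow_le_rpow h1 hq.le).trans ((tsum_rpow_le hq hq1 _).trans (le_of_eq ?_))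
    apply tsum_congr
    intro l
    rw [ENNReal.prod_rpow_of_nonneg hq.le]
  calc ∫⁻ x : (EuclideanSpace ℝ (Fin (m + 1))), ∏ j, ‖TT (volume.restrict (U j)) (Γ j) (f j) x‖ₑ ^ (2 / (m : ℝ))
      ≤ ∫⁻ x : (EuclideanSpace ℝ (Fin (m + 1))), ∑' l, (∏ i, ‖TT (volume.restrict (U (j₀.succAbove i))) (Γ (j₀.succAbove i)) (f (j₀.succAbove i)) x‖ₑ ^ (2 / (m : ℝ))) *
        ∏ k, ‖TT (volume.restrict (I k)) (γ k) (a l k) x‖ₑ ^ (2 / (m : ℝ)) := lintegral_mono key
    _ = ∑' l, ∫⁻ x : (EuclideanSpace ℝ (Fin (m + 1))), (∏ i, ‖TT (volume.restrict (U (j₀.succAbove i))) (Γ (j₀.succAbove i)) (f (j₀.succAbove i)) x‖ₑ ^ (2 / (m : ℝ))) *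
        ∏ k, ‖TT (volume.restrict (I k)) (γ k) (a l k) x‖ₑ ^ (2 / (m : ℝ)) := by
        apply lintegral_tsum
        intro l
        apply Measurable.aemeasurable
        apply Measurable.mul
        · apply Finset.measurable_prod
          intro i _
          exact ((TT_cont _ (hΓ _).continuous.measurable (hfint _)).enorm.measurable.pow_const _)
        · apply Finset.measurable_prod
          intro k _
          exact ((TT_cont _ (hγm k) (haint l k)).enorm.measurable.pow_const _)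
    _ ≤ ∑' l, D * (P * y l) := by
        apply ENNReal.tsum_le_tsum
        intro l
        have h1 := hest (fun i => f (j₀.succAbove i)) (a l) (fun i => hfint _) (haint l)
        rw [hP, hy]
        exact h1
    _ = D * (P * ∑' l, y l) := by
        rw [ENNReal.tsum_mul_left, ENNReal.tsum_mul_left]
    _ ≤ _ := by
        gcongr

end Final

/-- a compact patch of a hypersurface of class `C¹`: compact parameter set, `C¹` parametrisation,
injective derivative on the parameter set -/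
def IsPatch {n : ℕ} (U : Set (EuclideanSpace ℝ (Fin (n - 1))))
    (Γ : EuclideanSpace ℝ (Fin (n - 1)) → EuclideanSpace ℝ (Fin n)) : Prop :=
  IsCompact U ∧ ContDiff ℝ 1 Γ ∧ ∀ t ∈ U, Function.Injective (fderiv ℝ Γ t)

/-- transversality: the determinant of `n` unit normals, one of each patch, is at least `c` in
absolute value -/
def Transversal {n : ℕ} (U : Fin n → Set (EuclideanSpace ℝ (Fin (n - 1))))
    (Γ : Fin n → EuclideanSpace ℝ (Fin (n - 1)) → EuclideanSpace ℝ (Fin n)) (c : ℝ) : Prop :=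
  ∀ t : Fin n → EuclideanSpace ℝ (Fin (n - 1)), (∀ j, t j ∈ U j) →
    ∀ u : Fin n → EuclideanSpace ℝ (Fin n),
      (∀ j, ‖u j‖ = 1 ∧ ∀ v, inner ℝ (u j) (fderiv ℝ (Γ j) (t j) v) = 0) →
      c ≤ |(EuclideanSpace.basisFun (Fin n) ℝ).toBasis.det u|

/-- the Fourier extension operator of the patch `Γ` over `U` -/
noncomputable def extOp {n : ℕ} (U : Set (EuclideanSpace ℝ (Fin (n - 1))))
    (Γ : EuclideanSpace ℝ (Fin (n - 1)) → EuclideanSpace ℝ (Fin n))
    (f : EuclideanSpace ℝ (Fin (n - 1)) → ℂ) (x : EuclideanSpace ℝ (Fin n)) : ℂ :=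
  ∫ t in U, Complex.exp (2 * Real.pi * Complex.I * ((inner ℝ x (Γ t) : ℝ) : ℂ)) * f t

/-- the square of the `L²` norm of `f` over `U` -/
noncomputable def l2sq {α : Type} [MeasureSpace α] (U : Set α) (f : α → ℂ) : ENNReal :=
  ∫⁻ t in U, ‖f t‖ₑ ^ (2 : ℝ)

/-- **Endpoint multilinear extension inequality with one input in a projective tensor product.**
`n ≥ 3` compact hypersurface patches of class `C¹`, transversal, the patch with number `j₀` of
translation type over a box; `f j ∈ L²(U j)` for all `j`, and `f j₀ = ∑_l ∏_k a_{l,k}(t_k)`. -/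
theorem result (n : ℕ) (hn : 3 ≤ n) (U : Fin n → Set (EuclideanSpace ℝ (Fin (n - 1))))
    (Γ : Fin n → EuclideanSpace ℝ (Fin (n - 1)) → EuclideanSpace ℝ (Fin n)) (c : ℝ) (hc : 0 < c)
    (hU : ∀ j, IsPatch (U j) (Γ j)) (htr : Transversal U Γ c)
    (j₀ : Fin n) (I : Fin (n - 1) → Set ℝ) (γ : Fin (n - 1) → ℝ → EuclideanSpace ℝ (Fin n))
    (hI : ∀ k, IsCompact (I k)) (hγ : ∀ k, ContDiff ℝ 1 (γ k))
    (hsum : ∀ t, Γ j₀ t = ∑ k, γ k (t k)) (hbox : U j₀ = {t | ∀ k, t k ∈ I k}) :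
    ∃ C : NNReal, ∀ f : Fin n → EuclideanSpace ℝ (Fin (n - 1)) → ℂ,
      (∀ j, MemLp (f j) 2 (volume.restrict (U j))) →
      ∀ a : ℕ → Fin (n - 1) → ℝ → ℂ, (∀ l k, MemLp (a l k) 2 (volume.restrict (I k))) →
      (∀ᵐ t ∂(volume.restrict (U j₀)), f j₀ t = ∑' l, ∏ k, a l k (t k)) →
      ∫⁻ x, ∏ j, ‖extOp (U j) (Γ j) (f j) x‖ₑ ^ ((2 : ℝ) / (n - 1))
        ≤ C * ((∏ j ∈ Finset.univ.erase j₀, l2sq (U j) (f j) ^ ((1 : ℝ) / (n - 1))) *
            ∑' l, ∏ k, l2sq (I k) (a l k) ^ ((1 : ℝ) / (n - 1))) := by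
  obtain ⟨m, rfl⟩ : ∃ m, n = m + 1 := ⟨n - 1, by omega⟩
  have hm : 2 ≤ m := by omega
  obtain ⟨C, hC⟩ := main_est hm hc (fun j => (hU j).1) (fun j => (hU j).2.1) (fun j => (hU j).2.2)
    htr j₀ hI hγ hsum hbox
  refine ⟨C, ?_⟩
  intro f hf a ha hfa
  have h1 := hC f hf a ha hfa
  have e1 : ((m + 1 : ℕ) : ℝ) - 1 = m := by push_cast; ring
  have e2 : ∀ z : ℝ≥0∞, z ^ (2 : ℝ) = z ^ 2 := fun z => by
    rw [← ENNReal.rpow_natCast]; norm_num
  have e3 : ∀ g : Fin (m + 1) → ℝ≥0∞, ∏ j ∈ Finset.univ.erase j₀, g j = ∏ i, g (j₀.succAbove i) := by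
    intro g
    have h3 : Finset.univ.erase j₀ = Finset.univ.image j₀.succAbove := by
      rw [Fin.image_succAbove_univ]
      ext j
      simp
    rw [h3, Finset.prod_image (fun a _ b _ h => Fin.succAbove_right_injective h)]
  unfold extOp l2sq
  rw [e3, e1]
  simp only [e2]
  exact h1

end Pool.Agent.Results.MP_c3fd65_an.ProductInput
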